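import Pool.Agent.helper81.CW.Spec2

/-! # Project cw, module J5 -/

open MeasureTheory Set

namespace Pool.Agent.helper81.CW

theorem J5b (hJ2 : J2_stmt) (hJ4 : J4_stmt) : J5_stmt := by
  intro n C R hC hR hCR x hx
  obtain ⟨hle, -, -⟩ := hJ4 n C R hC.1 hR hCR
  have key : ∀ y : E n, ‖y‖ ^ 2 + 2 * supp C (-y) + R ^ 2 ≤ 1 → y ∈ C := by
    intro y hy
    refine (hJ2 n C 1 hC).2.1 y fun c hc => ?_
    have h1 : ‖y - c‖ ^ 2 ≤ 1 := by
      rw [norm_sub_sq_real]
      have h2 := hle c hc (-y)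
      rw [inner_neg_left] at h2
      have h3 : ‖c‖ ^ 2 ≤ R ^ 2 := pow_le_pow_left₀ (norm_nonneg _) (hCR c hc) 2
      linarith
    nlinarith [norm_nonneg (y - c)]
  refine ⟨key x ?_, key (-x) ?_⟩
  · have := le_max_right (supp C x) (supp C (-x))
    linarith
  · have := le_max_left (supp C x) (supp C (-x))
    rw [norm_neg, neg_neg]
    linarith

end Pool.Agent.helper81.CW
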