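import Pool.Agent.helper20.CW.LOW

/-! # Project cw, module J6 -/

open MeasureTheory Set

namespace Pool.Agent.helper81.CW

theorem J6b (hG1 : G1_stmt) (hG3 : G3_stmt) (hG4 : G4_stmt) (hJ4 : J4_stmt) : J6_stmt := by
  intro n C R hn hC hR hCR
  obtain ⟨-, hLip, hhom⟩ := hJ4 n C R hC.1 hR hCR
  have hs0 : supp C 0 = 0 := LOW_supp_zero C hC.1
  have : IsProbabilityMeasure (gm n) := (hG1 n).1
  have hn0 : (0 : ℝ) < n := by exact_mod_cast hn
  have hcont : Continuous (supp C) := by
    have hL : LipschitzWith R.toNNReal (supp C) := by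
      refine LipschitzWith.of_dist_le_mul fun x y => ?_
      rw [Real.dist_eq, dist_eq_norm, Real.coe_toNNReal R hR]
      exact hLip x y
    exact hL.continuous
  obtain ⟨e, he⟩ : ∃ e : E n → ℝ, ∀ x, e x = |supp C x / ‖x‖ - 1 / 2| := ⟨_, fun _ => rfl⟩
  have he0 : ∀ x, 0 ≤ e x := fun x => by rw [he]; exact abs_nonneg _
  have hefun : (fun x => |supp C x / ‖x‖ - 1 / 2|) = e := (funext he).symm
  rw [hefun]
  have heM : Measurable e := by
    rw [← hefun]
    exact continuous_abs.measurable.comp ((hcont.measurable.div measurable_norm).sub_const _)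
  have heB : ∀ x, e x ≤ R + 1 / 2 := by
    intro x
    rw [he]
    have h1 : |supp C x| ≤ R * ‖x‖ := by
      have h := hLip x 0
      rw [hs0, sub_zero, sub_zero] at h
      exact h
    have h2 : |supp C x / ‖x‖| ≤ R := by
      rw [abs_div, abs_norm]
      by_cases hx : ‖x‖ = 0
      · rw [hx, div_zero]; exact hR
      · have hxp : 0 < ‖x‖ := lt_of_le_of_ne (norm_nonneg x) (Ne.symm hx)
        rw [div_le_iff₀ hxp]
        exact h1
    have h3 := abs_sub (supp C x / ‖x‖) (1 / 2)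
    have h4 : |(1 / 2 : ℝ)| = 1 / 2 := abs_of_pos (by norm_num)
    linarith
  -- the odd function
  obtain ⟨g, hg⟩ : ∃ g : E n → ℝ, ∀ x, g x = (supp C x - supp C (-x)) / 2 := ⟨_, fun _ => rfl⟩
  have hgL : ∀ x y, |g x - g y| ≤ R * ‖x - y‖ := by
    intro x y
    rw [hg, hg]
    have h1 := abs_le.mp (hLip x y)
    have h2 := abs_le.mp (hLip (-x) (-y))
    have h3 : ‖-x - -y‖ = ‖x - y‖ := by
      rw [neg_sub_neg, norm_sub_rev]
    rw [h3] at h2
    rw [abs_le]
    constructor <;> linarith [h1.1, h1.2, h2.1, h2.2]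
  have hgo : ∀ x, g (-x) = - g x := by
    intro x
    rw [hg, hg, neg_neg]
    ring
  have hge : ∀ x, g x ^ 2 = ‖x‖ ^ 2 * e x ^ 2 := by
    intro x
    by_cases hx0 : x = 0
    · subst hx0
      rw [hg, neg_zero, sub_self, zero_div, norm_zero]
      ring
    · have hxp : 0 < ‖x‖ := norm_pos_iff.mpr hx0
      have hsum : supp C x + supp C (-x) = ‖x‖ := by
        have h1 : ‖(‖x‖⁻¹ : ℝ) • x‖ = 1 := by
          rw [norm_smul, norm_inv, norm_norm, inv_mul_cancel₀ hxp.ne']
        have h2 := hC.2.2.2.2 _ h1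
        rw [← smul_neg, hhom x _ (inv_nonneg.mpr hxp.le), hhom (-x) _ (inv_nonneg.mpr hxp.le),
          ← mul_add] at h2
        field_simp at h2
        linarith
      have h4 : g x = ‖x‖ * (supp C x / ‖x‖ - 1 / 2) := by
        rw [hg]
        have : supp C (-x) = ‖x‖ - supp C x := by linarith
        rw [this]
        field_simp
        ring
      rw [h4, he, mul_pow, sq_abs]
  obtain ⟨-, hP⟩ := hG3 n g R hR hgL hgo
  have h4 := hG4 n (fun x => e x ^ 2) ((R + 1 / 2) ^ 2) (heM.pow_const 2)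
    (fun x => by
      rw [abs_of_nonneg (sq_nonneg _)]
      exact pow_le_pow_left₀ (he0 x) (heB x) 2)
    (fun x t ht => by
      have h1 : e (t • x) = e x := by
        rw [he, he, hhom x t ht.le, norm_smul, Real.norm_of_nonneg ht.le,
          mul_div_mul_left _ _ ht.ne']
      simp only [h1])
  have h5 : ∫ x, g x ^ 2 ∂(gm n) = n * ∫ x, e x ^ 2 ∂(gm n) := by
    rw [← h4]
    refine integral_congr_ae (Filter.Eventually.of_forall fun x => ?_)
    exact hge x
  rw [h5] at hP
  have heI : Integrable e (gm n) := by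
    refine Integrable.of_bound heM.aestronglyMeasurable (R + 1 / 2) ?_
    refine Filter.Eventually.of_forall fun x => ?_
    rw [Real.norm_of_nonneg (he0 x)]
    exact heB x
  have heI2 : Integrable (fun x => e x ^ 2) (gm n) := by
    refine Integrable.of_bound (heM.pow_const 2).aestronglyMeasurable ((R + 1 / 2) ^ 2) ?_
    refine Filter.Eventually.of_forall fun x => ?_
    rw [Real.norm_of_nonneg (sq_nonneg _)]
    exact pow_le_pow_left₀ (he0 x) (heB x) 2
  set a := ∫ x, e x ∂(gm n) with ha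
  have ha0 : 0 ≤ a := integral_nonneg he0
  have h6 : a ^ 2 ≤ ∫ x, e x ^ 2 ∂(gm n) := by
    have h7 : 0 ≤ ∫ x, (e x ^ 2 - 2 * a * e x + a ^ 2) ∂(gm n) := by
      refine integral_nonneg fun x => ?_
      have : e x ^ 2 - 2 * a * e x + a ^ 2 = (e x - a) ^ 2 := by ring
      simp only [Pi.zero_apply]
      rw [this]
      exact sq_nonneg _
    have h9 : ∫ x, (e x ^ 2 - 2 * a * e x + a ^ 2) ∂(gm n) =
        ∫ x, (e x ^ 2 - 2 * a * e x) ∂(gm n) + ∫ _x, a ^ 2 ∂(gm n) :=
      integral_add (heI2.sub (heI.const_mul (2 * a))) (integrable_const _)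
    have h10 : ∫ x, (e x ^ 2 - 2 * a * e x) ∂(gm n) =
        ∫ x, e x ^ 2 ∂(gm n) - ∫ x, 2 * a * e x ∂(gm n) :=
      integral_sub heI2 (heI.const_mul (2 * a))
    rw [h9, h10, integral_const_mul, integral_const, probReal_univ, smul_eq_mul, one_mul,
      ← ha] at h7
    nlinarith
  have h8 : a ^ 2 ≤ (R / Real.sqrt n) ^ 2 := by
    rw [div_pow, Real.sq_sqrt hn0.le, le_div_iff₀ hn0]
    calc a ^ 2 * n = n * a ^ 2 := mul_comm _ _
      _ ≤ n * ∫ x, e x ^ 2 ∂(gm n) := mul_le_mul_of_nonneg_left h6 hn0.le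
      _ ≤ R ^ 2 := hP
  exact le_of_sq_le_sq h8 (by positivity)

end Pool.Agent.helper81.CW
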