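import Pool.Agent.helper81.CW.Spec1

/-! # Project cw, module U7: union bound over slabs -/

open MeasureTheory Set
open scoped ENNReal

namespace Pool.Agent.helper81.CW

theorem U7_exists_unit {n : ℕ} (hn : 0 < n) (c : E n) : ∃ e : E n, ‖e‖ = 1 ∧ c = ‖c‖ • e := by
  by_cases hc : c = 0
  · refine ⟨EuclideanSpace.single ⟨0, hn⟩ 1, by simp, by simp [hc]⟩
  · have h : ‖c‖ ≠ 0 := norm_ne_zero_iff.mpr hc
    refine ⟨‖c‖⁻¹ • c, ?_, ?_⟩
    · rw [norm_smul, norm_inv, norm_norm, inv_mul_cancel₀ h]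
    · rw [smul_smul, mul_inv_cancel₀ h, one_smul]

theorem U7_const : (0.4412 : ℝ) * Real.sqrt (2 * Real.pi * Real.exp 1) ≤ 1.8234 := by
  have h1 : Real.sqrt (2 * Real.pi * Real.exp 1) ≤ 1.8234 / 0.4412 := by
    apply Real.sqrt_le_iff.mpr
    refine ⟨by norm_num, ?_⟩
    have hp := Real.pi_lt_d6
    have he := Real.exp_one_lt_d9
    have hp0 := Real.pi_pos
    have he0 := Real.exp_pos 1
    have : 2 * Real.pi * Real.exp 1 ≤ 2 * 3.141593 * 2.7182818286 := by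
      have := mul_le_mul hp.le he.le he0.le (by norm_num : (0:ℝ) ≤ 3.141593)
      nlinarith
    refine this.trans ?_
    norm_num
  calc (0.4412 : ℝ) * Real.sqrt (2 * Real.pi * Real.exp 1) ≤ 0.4412 * (1.8234 / 0.4412) :=
        mul_le_mul_of_nonneg_left h1 (by norm_num)
    _ = 1.8234 := by norm_num

/-- the pointwise dichotomy -/
theorem U7_point (hU5 : U5_stmt) {n : ℕ} {c e b : E n} {κ : ℝ} (hκ0 : 0 ≤ κ) (hκ : κ ^ 2 = 0.30534256)
    (he : ‖e‖ = 1) (hc : c = ‖c‖ • e) (hb : b ∈ T c) :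
    (∃ j ∈ Finset.range 50001, ‖b‖ ^ 2 ≤ (0.4412 : ℝ) ^ 2 + (j : ℝ) * 0.00001 ∧
        (j : ℝ) * 0.00001 ≤ (inner ℝ e b) ^ 2) ∨
      (‖c‖ ≤ κ ∧ ∑ i, (max (|b i| - |c i|) 0) ^ 2 ≤
        (κ - ‖c‖) ^ 2 * max ((κ + ‖c‖) ^ 2) (8 * ‖c‖ ^ 2) + 0.00004 * ‖c‖ ^ 2) := by
  obtain ⟨h1, h2⟩ := hb
  set γ := ‖c‖ with hγ
  have hγ0 : 0 ≤ γ := norm_nonneg _
  set t : ℝ := inner ℝ e b with ht
  have hδ : (inner ℝ c b : ℝ) = γ * t := by
    conv_lhs => rw [hc]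
    rw [inner_smul_left]; simp [ht]
  rw [hδ] at h1 h2
  have ht2 : t ^ 2 ≤ ‖b‖ ^ 2 := by
    have := abs_real_inner_le_norm e b
    rw [he, one_mul] at this
    rw [← sq_abs t]
    exact pow_le_pow_left₀ (abs_nonneg _) this 2
  have habs : |γ * t| = γ * |t| := by rw [abs_mul, abs_of_nonneg hγ0]
  rw [habs] at h1
  have htt : 0 ≤ γ * |t| := mul_nonneg hγ0 (abs_nonneg _)
  have hN0 : 0 ≤ ‖b‖ ^ 2 := by positivity
  have hhalf : t ^ 2 ≤ 1 / 2 := by linarith [sq_nonneg γ]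
  set j := ⌊t ^ 2 / 0.00001⌋₊ with hj
  have hj1 : (j : ℝ) * 0.00001 ≤ t ^ 2 := by
    have := Nat.floor_le (a := t ^ 2 / 0.00001) (by positivity)
    rw [← hj, le_div_iff₀ (by norm_num)] at this
    exact this
  have hj2 : t ^ 2 < ((j : ℝ) + 1) * 0.00001 := by
    have := Nat.lt_floor_add_one (t ^ 2 / 0.00001)
    rw [← hj, div_lt_iff₀ (by norm_num)] at this
    exact this
  have hj3 : j < 50001 := by
    have : (j : ℝ) * 0.00001 ≤ 1 / 2 := hj1.trans hhalf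
    have : (j : ℝ) ≤ 50000 := by linarith
    have : j ≤ 50000 := by exact_mod_cast this
    omega
  by_cases hcap : ‖b‖ ^ 2 ≤ (0.4412 : ℝ) ^ 2 + (j : ℝ) * 0.00001
  · left
    exact ⟨j, Finset.mem_range.mpr hj3, hcap, hj1⟩
  · right
    push Not at hcap
    set q := Real.sqrt ((j : ℝ) * 0.00001) with hq
    have hq0 : 0 ≤ q := Real.sqrt_nonneg _
    have hq2 : q ^ 2 = (j : ℝ) * 0.00001 := Real.sq_sqrt (by positivity)
    have hqt : q ≤ |t| := by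
      rw [hq, ← Real.sqrt_sq_eq_abs]
      exact Real.sqrt_le_sqrt hj1
    have hgq : γ * q ≤ γ * |t| := mul_le_mul_of_nonneg_left hqt hγ0
    have h3 : (q + γ) ^ 2 < κ ^ 2 := by
      have h9 : (q + γ) ^ 2 = q ^ 2 + 2 * (γ * q) + γ ^ 2 := by ring
      rw [hκ, h9, hq2]
      have h10 : (0.4412 : ℝ) ^ 2 = 0.19465744 := by norm_num
      rw [h10] at hcap
      linarith
    have h4 : q + γ < κ := lt_of_pow_lt_pow_left₀ 2 hκ0 h3
    refine ⟨by linarith, h2.trans ?_⟩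
    have h5 := hU5 κ γ q hγ0 hq0 (by linarith)
    have h6 : (1 / 2 - γ ^ 2 - ‖b‖ ^ 2) ^ 2 ≤ (κ ^ 2 - γ ^ 2 - q ^ 2) ^ 2 := by
      apply pow_le_pow_left₀
      · linarith
      · rw [hκ, hq2]
        have h10 : (0.4412 : ℝ) ^ 2 = 0.19465744 := by norm_num
        rw [h10] at hcap
        linarith
    have h7 : 4 * (γ * t) ^ 2 ≤ 4 * γ ^ 2 * q ^ 2 + 0.00004 * γ ^ 2 := by
      have h8 : γ ^ 2 * t ^ 2 ≤ γ ^ 2 * (((j : ℝ) + 1) * 0.00001) :=
        mul_le_mul_of_nonneg_left hj2.le (by positivity)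
      calc 4 * (γ * t) ^ 2 = 4 * (γ ^ 2 * t ^ 2) := by ring
        _ ≤ 4 * (γ ^ 2 * (((j : ℝ) + 1) * 0.00001)) := by linarith
        _ = 4 * γ ^ 2 * q ^ 2 + 0.00004 * γ ^ 2 := by rw [hq2]; ring
    linarith

theorem U7 (hU2 : U2_stmt) (hU3 : U3_stmt) (hU4 : U4_stmt) (hU5 : U5_stmt) (hU6 : U6_stmt) :
    U7_stmt := by
  intro n c hn
  have hn' : (0 : ℝ) < n := by exact_mod_cast hn
  have hden : (0 : ℝ) < (n : ℝ) ^ ((n : ℝ) / 2) := Real.rpow_pos_of_pos hn' _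
  obtain ⟨e, he, hc⟩ := U7_exists_unit hn c
  set κ := Real.sqrt 0.30534256 with hκd
  have hκ0 : 0 ≤ κ := Real.sqrt_nonneg _
  have hκ : κ ^ 2 = 0.30534256 := Real.sq_sqrt (by norm_num)
  -- ball bound
  have hball : volume (Metric.closedBall (0 : E n) 0.4412) ≤
      ENNReal.ofReal (1.8234 ^ n / (n : ℝ) ^ ((n : ℝ) / 2)) := by
    refine (hU4 n 0.4412 hn (by norm_num)).trans (ENNReal.ofReal_le_ofReal ?_)
    apply div_le_div_of_nonneg_right _ hden.le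
    exact pow_le_pow_left₀ (by positivity) U7_const n
  -- the D set
  set D : Set (E n) := {b | ‖c‖ ≤ κ ∧ ∑ i, (max (|b i| - |c i|) 0) ^ 2 ≤
        (κ - ‖c‖) ^ 2 * max ((κ + ‖c‖) ^ 2) (8 * ‖c‖ ^ 2) + 0.00004 * ‖c‖ ^ 2} with hD
  have hDvol : volume D ≤ ENNReal.ofReal (1.8234 ^ n / (n : ℝ) ^ ((n : ℝ) / 2)) := by
    by_cases hk : ‖c‖ ≤ κ
    · have hsub : D ⊆ {b | ∑ i, (max (|b i| - |c i|) 0) ^ 2 ≤
          (κ - ‖c‖) ^ 2 * max ((κ + ‖c‖) ^ 2) (8 * ‖c‖ ^ 2) + 0.00004 * ‖c‖ ^ 2} := fun b hb => hb.2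
      refine (measure_mono hsub).trans ((hU3 n c _ 6.7 hn (by norm_num)).trans
        (ENNReal.ofReal_le_ofReal ?_))
      apply div_le_div_of_nonneg_right _ hden.le
      refine pow_le_pow_left₀ (by positivity) ?_ n
      exact (hU6 κ ‖c‖ hκ0 hκ (norm_nonneg _) hk).trans (by norm_num)
    · have : D = ∅ := by
        ext b; simp only [mem_empty_iff_false, iff_false]
        exact fun h => hk h.1
      rw [this]; simp
  set Cap : ℕ → Set (E n) := fun j => {b | ‖b‖ ^ 2 ≤ (0.4412 : ℝ) ^ 2 + (j : ℝ) * 0.00001 ∧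
        (j : ℝ) * 0.00001 ≤ (inner ℝ e b) ^ 2} with hCap
  have hCapvol : ∀ j, volume (Cap j) ≤ 2 * ENNReal.ofReal (1.8234 ^ n / (n : ℝ) ^ ((n : ℝ) / 2)) := by
    intro j
    refine (hU2 n e 0.4412 ((j : ℝ) * 0.00001) he (by norm_num) (by positivity)).trans ?_
    gcongr
  have hsub : T c ⊆ (⋃ j ∈ Finset.range 50001, Cap j) ∪ D := by
    intro b hb
    rcases U7_point hU5 hκ0 hκ he hc hb with ⟨j, hj, h1, h2⟩ | ⟨h1, h2⟩
    · left
      exact mem_biUnion (x := j) (by simpa using hj) ⟨h1, h2⟩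
    · right
      exact ⟨h1, h2⟩
  have hnum : (0 : ℝ) ≤ 1.8234 ^ n / (n : ℝ) ^ ((n : ℝ) / 2) := by positivity
  calc volume (T c) ≤ volume ((⋃ j ∈ Finset.range 50001, Cap j) ∪ D) := measure_mono hsub
    _ ≤ volume (⋃ j ∈ Finset.range 50001, Cap j) + volume D := measure_union_le _ _
    _ ≤ (∑ j ∈ Finset.range 50001, volume (Cap j)) + volume D := by
        gcongr; exact measure_biUnion_finset_le _ _
    _ ≤ (∑ _j ∈ Finset.range 50001, 2 * ENNReal.ofReal (1.8234 ^ n / (n : ℝ) ^ ((n : ℝ) / 2))) +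
          ENNReal.ofReal (1.8234 ^ n / (n : ℝ) ^ ((n : ℝ) / 2)) := by
        refine add_le_add (Finset.sum_le_sum fun j _ => hCapvol j) hDvol
    _ = ENNReal.ofReal (100003 * (1.8234 ^ n / (n : ℝ) ^ ((n : ℝ) / 2))) := by
        rw [Finset.sum_const, Finset.card_range, nsmul_eq_mul, ENNReal.ofReal_mul (by norm_num)]
        rw [← mul_assoc]
        conv_lhs => rw [← one_mul (ENNReal.ofReal (1.8234 ^ n / (n : ℝ) ^ ((n : ℝ) / 2))), ← mul_assoc,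
          ← add_mul]
        congr 1
        rw [show (100003 : ℝ) = ((100003 : ℕ) : ℝ) by norm_num, ENNReal.ofReal_natCast]
        push_cast
        norm_num
    _ ≤ ENNReal.ofReal (200000 * 1.8234 ^ n / (n : ℝ) ^ ((n : ℝ) / 2)) := by
        apply ENNReal.ofReal_le_ofReal
        rw [mul_div_assoc]
        exact mul_le_mul_of_nonneg_right (by norm_num) hnum

end Pool.Agent.helper81.CW
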