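import Pool.Agent.helper81.CW.FIN1
import Pool.Agent.helper81.CW.U7
import Pool.Agent.helper78.CW.W1
import Pool.Agent.helper63.CW.W2
import Pool.Agent.helper98.CW.V1
import Pool.Agent.helper72.CW.V2
import Pool.Agent.helper6.CW.V3
import Pool.Agent.helper93.CW.V4
import Pool.Agent.helper16.CW.U1
import Pool.Agent.helper78.CW.U2
import Pool.Agent.helper16.CW.U3
import Pool.Agent.helper3.CW.U4
import Pool.Agent.helper72.CW.U5
import Pool.Agent.helper6.CW.U6
import Pool.Agent.helper21.CW.MU1
import Pool.Agent.helper44.CW.MU2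
import Pool.Agent.helper38.CW.MU3

/-! # Project cw: the unconditional upper bounds -/

open MeasureTheory Set
open scoped ENNReal

namespace Pool.Agent.helper81.CW

theorem upper_U7 : U7_stmt := U7 U2 U3 (U4 U3) U5 U6

theorem upper_V4 : V4_stmt := V4 V2 (V3 V1)

theorem upper_sigma : ∀ᶠ n : ℕ in Filter.atTop, sigma n ≤ ENNReal.ofReal (0.991 ^ n) :=
  FIN1 W1 W2 upper_V4 U1 upper_U7

theorem upper_MU3 : MU3_stmt := MU3 MU1 MU2

end Pool.Agent.helper81.CW
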