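import Pool.Agent.helper81.CW.Defs

/-! # Project cw, part 2: lower bounds for `σ`, `τ`, outer measure (proof sketches in the docstrings).
Every module is independent of the others: take the statements of other modules as hypotheses. -/

open MeasureTheory Set
open scoped ENNReal Pointwise

namespace Pool.Agent.helper81.CW

/-- standard Gaussian measure, as a density -/
noncomputable def gm (n : ℕ) : Measure (E n) :=
  volume.withDensity (fun x => ENNReal.ofReal (Real.exp (-‖x‖ ^ 2 / 2) / Real.sqrt (2 * Real.pi) ^ n))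

/-- the minimal volume ratio (Blaschke-Lebesgue problem): infimum over all bodies `C` of constant width `w` of
`vol C / vol (ball of diameter w)` -/
noncomputable def mvol (n : ℕ) : ℝ≥0∞ :=
  ⨅ p : {p : Set (E n) × ℝ // ConstWidth p.1 p.2}, volume p.1.1 / volume (Metric.closedBall (0 : E n) (p.1.2 / 2))

/-- `gm` is a probability measure (product of one-dimensional Gaussian integrals), invariant under `x ↦ -x`. -/
def G1_stmt : Prop := ∀ n : ℕ, IsProbabilityMeasure (gm n) ∧ Measure.map (fun x : E n => -x) (gm n) = gm n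

/-- Maurey's property (tau) from Prekopa-Leindler (`Pool.Agent.helper96.prekopa_leindler`, file helper96/PL2, `t = 1/2`, on `Fin n → ℝ`; transport
with `EuclideanSpace.volume_preserving_symm_measurableEquiv_toLp` or its analogue): with `φ(x) = exp(-‖x‖^2/2)`,
`f = exp (g x - R^2) φ x`, `g' = exp (- g y) φ y`, `h = φ`: `g x - R^2 ≤ g y + ‖x-y‖^2/4` because `g x - g y ≤ R‖x-y‖`, and
`‖x-y‖^2/8 - (‖x‖^2+‖y‖^2)/4 = -‖(x+y)/2‖^2/2`. (Integrability: `|g x| ≤ |g 0| + R‖x‖`.) -/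
def G2_stmt : Prop := ∀ (n : ℕ) (g : E n → ℝ) (R : ℝ), 0 ≤ R → (∀ x y, |g x - g y| ≤ R * ‖x - y‖) →
  (∫ x, Real.exp (g x) ∂(gm n)) * (∫ x, Real.exp (-g x) ∂(gm n)) ≤ Real.exp (R ^ 2)

/-- Poincare inequality for odd Lipschitz functions, from `G1`, `G2`: apply `G2` to `l * g`: both factors are equal (`g` odd), so
`∫ cosh (l g) ≤ exp (l^2 R^2 / 2)`; `cosh t ≥ 1 + t^2/2`; let `l → 0`. -/
def G3_stmt : Prop := ∀ (n : ℕ) (g : E n → ℝ) (R : ℝ), 0 ≤ R → (∀ x y, |g x - g y| ≤ R * ‖x - y‖) →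
  (∀ x, g (-x) = - g x) → Integrable (fun x => g x ^ 2) (gm n) ∧ ∫ x, g x ^ 2 ∂(gm n) ≤ R ^ 2

/-- independence of radius and direction: for `ψ` bounded, measurable, invariant under positive dilations. Proof: `F(l) = ∫ ψ(x) exp(-l‖x‖^2/2) dx
= l^(-n/2) F(1)` by scaling; derivative at `l = 1`. (Or polar coordinates.) -/
def G4_stmt : Prop := ∀ (n : ℕ) (ψ : E n → ℝ) (B : ℝ), Measurable ψ → (∀ x, |ψ x| ≤ B) →
  (∀ (x : E n) (t : ℝ), 0 < t → ψ (t • x) = ψ x) →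
  ∫ x, ‖x‖ ^ 2 * ψ x ∂(gm n) = n * ∫ x, ψ x ∂(gm n)

/-- volume of a star body with radial function `f` (0-homogeneous) by polar coordinates
(`MeasureTheory.Measure.measurePreserving_homeomorphUnitSphereProd`, `toSphere`), and Jensen:
`volume {‖x‖ ≤ f x} = kap n ∫ f^n d(gm) ≥ kap n (∫ f d(gm))^n`. -/
def G5_stmt : Prop := ∀ (n : ℕ) (f : E n → ℝ), 0 < n → Measurable f → (∀ x, 0 ≤ f x) → (∀ x, f x ≤ 1) →
  (∀ (x : E n) (t : ℝ), 0 < t → f (t • x) = f x) →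
  ENNReal.ofReal (kap n * (∫ x, f x ∂(gm n)) ^ n) ≤ volume {x : E n | ‖x‖ ≤ f x}

/-- isodiametric inequality, from Prekopa-Leindler (helper96/PL2, t = 1/2) with the indicators of `K`, `-K` and of the closed ball:
`(x - y)/2` is in the ball of radius `D/2`. -/
def G6_stmt : Prop := ∀ (n : ℕ) (K : Set (E n)) (D : ℝ), MeasurableSet K → 0 ≤ D →
  (∀ x ∈ K, ∀ y ∈ K, ‖x - y‖ ≤ D) → volume K ≤ volume (Metric.closedBall (0 : E n) (D / 2))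

/-- Jung's theorem (simple form). Let `z` minimise `F z = max_{x ∈ C} ‖x - z‖` (exists), `R = F z`. For a contact point `y` (`‖y - z‖ = R`) there is a
contact point `x` with `⟪x - z, y - z⟫ ≤ 0` (otherwise, by compactness, moving `z` towards `y` decreases `F`). Then
`‖x - y‖^2 ≥ 2 R^2`. -/
def J1_stmt : Prop := ∀ (n : ℕ) (C : Set (E n)), IsCompact C → C.Nonempty → (∀ x ∈ C, ∀ y ∈ C, ‖x - y‖ ≤ 1) →
  ∃ (z : E n) (R : ℝ), 0 ≤ R ∧ R ^ 2 ≤ 1 / 2 ∧ ∀ x ∈ C, ‖x - z‖ ≤ R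

/-- basic facts: diameter; completeness (if `y ∉ C` separate: unit `v` with `⟪v,y⟫ > supp C v`, and `x ∈ C` with `⟪-v,x⟫ = supp C (-v)`; then
`⟪v, y - x⟫ > w`); `closedBall 0 w ⊆ C - C` (separate, `C - C` compact convex with support function `w` on unit vectors). -/
def J2_stmt : Prop := ∀ (n : ℕ) (C : Set (E n)) (w : ℝ), ConstWidth C w →
  (∀ x ∈ C, ∀ y ∈ C, ‖x - y‖ ≤ w) ∧ (∀ y : E n, (∀ x ∈ C, ‖y - x‖ ≤ w) → y ∈ C) ∧
    (∀ z : E n, ‖z‖ ≤ w → ∃ x ∈ C, ∃ y ∈ C, x - y = z)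

/-- similarity: translate and scale. -/
def J3_stmt : Prop := ∀ (n : ℕ) (C : Set (E n)) (w t : ℝ) (z : E n), ConstWidth C w → 0 < t →
  ConstWidth ((fun x => t • (x - z)) '' C) (t * w) ∧
    volume ((fun x => t • (x - z)) '' C) = ENNReal.ofReal (t ^ n) * volume C

/-- support function of a set in the ball of radius `R`: pointwise bound, Lipschitz, positively homogeneous. -/
def J4_stmt : Prop := ∀ (n : ℕ) (C : Set (E n)) (R : ℝ), C.Nonempty → 0 ≤ R → (∀ x ∈ C, ‖x‖ ≤ R) →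
  (∀ x ∈ C, ∀ u, inner ℝ u x ≤ supp C u) ∧ (∀ u v, |supp C u - supp C v| ≤ R * ‖u - v‖) ∧
    (∀ (u : E n) (t : ℝ), 0 ≤ t → supp C (t • u) = t * supp C u)

/-- points of `C ∩ -C`, from `J2`, `J4`: for `y ∈ C`, `‖x - y‖^2 = ‖x‖^2 + 2⟪-x,y⟫ + ‖y‖^2 ≤ ‖x‖^2 + 2 supp C (-x) + R^2 ≤ 1`. -/
def J5_stmt : Prop := ∀ (n : ℕ) (C : Set (E n)) (R : ℝ), ConstWidth C 1 → 0 ≤ R → (∀ x ∈ C, ‖x‖ ≤ R) →
  ∀ x : E n, ‖x‖ ^ 2 + 2 * max (supp C x) (supp C (-x)) + R ^ 2 ≤ 1 → x ∈ C ∧ -x ∈ C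

/-- mean deviation of the support function from 1/2. `g x = (supp C x - supp C (-x))/2` is odd and R-Lipschitz; `supp C x + supp C (-x) = ‖x‖`, so
`g x = ‖x‖ ψ x`, `ψ x = supp C x / ‖x‖ - 1/2` (x ≠ 0). `G3`: `∫ g^2 ≤ R^2`; `G4` for `ψ^2`: `n ∫ ψ^2 ≤ R^2`; Cauchy-Schwarz. For `x = 0` Lean gives
`ψ 0 = -1/2` (null set, or redefine). -/
def J6_stmt : Prop := ∀ (n : ℕ) (C : Set (E n)) (R : ℝ), 0 < n → ConstWidth C 1 → 0 ≤ R → (∀ x ∈ C, ‖x‖ ≤ R) →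
  ∫ x, |supp C x / ‖x‖ - 1 / 2| ∂(gm n) ≤ R / Real.sqrt n

/-- `φ(t) = -t + √(t^2 + 1 - R^2)` for `R^2 ≤ 1/2`, `t ≥ 1/2`: decreasing, 1-Lipschitz, `φ(1/2) ≥ (√3-1)/2`; and `r = φ(t)` solves `r^2 + 2 r t + R^2 = 1`. -/
def J7_stmt : Prop := ∀ R e : ℝ, 0 ≤ R → R ^ 2 ≤ 1 / 2 → 0 ≤ e →
  (Real.sqrt 3 - 1) / 2 - e ≤ -(1 / 2 + e) + Real.sqrt ((1 / 2 + e) ^ 2 + 1 - R ^ 2) ∧
    0 ≤ -(1 / 2 + e) + Real.sqrt ((1 / 2 + e) ^ 2 + 1 - R ^ 2) ∧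
    -(1 / 2 + e) + Real.sqrt ((1 / 2 + e) ^ 2 + 1 - R ^ 2) ≤ 1

/-- main lower bound (Schramm's method for the symmetric part), from `G5`, `J1`..`J7`. First translate so that `z = 0` in `J1`. With
`e x = |supp C x/‖x‖ - 1/2|` and `f x = φ(1/2 + e x)`: `max (supp C x) (supp C (-x)) = ‖x‖ (1/2 + e x)`, so every x with `‖x‖ ≤ f x` is in
`C` and `-x ∈ C` (`J5`); `∫ f ≥ (√3-1)/2 - ∫ e ≥ (√3-1)/2 - 1/√(2n)` (`J6`, `R ≤ 1/√2`). `G5`. (With positive part because the mean could be below 0 for n ≤ 3.) -/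
def LOW_stmt : Prop := ∀ (n : ℕ) (C : Set (E n)), 0 < n → ConstWidth C 1 →
  ∃ z : E n, (∀ x ∈ C, ‖x - z‖ ≤ Real.sqrt (1 / 2)) ∧
    ENNReal.ofReal (kap n * (max ((Real.sqrt 3 - 1) / 2 - 1 / Real.sqrt (2 * n)) 0) ^ n) ≤
      volume {x : E n | z + x ∈ C ∧ z - x ∈ C}

/-- `σ_n ≥ (√3 - 1 - √(2/n))^n`: for `C` of width `w` use `J3` (t = 1/w), `LOW`, and the isodiametric inequality `G6`
(`volume C ≤ kap n (w/2)^n`, `EuclideanSpace.volume_closedBall`); the set `{x | z+x ∈ C, z-x ∈ C}` translated by `z` is convex and symmetric. -/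
def SLOW_stmt : Prop := ∀ n : ℕ, 0 < n →
  ENNReal.ofReal ((max (Real.sqrt 3 - 1 - Real.sqrt (2 / n)) 0) ^ n) ≤ sigma n

/-- volume of the symmetric hull: `convexHull (C ∪ -C) ⊆ {t x - (1-t) y}`. With `t_j = j/n` nearest to `t`:
`t x - (1-t) y = (t_j x - (1-t_j) y) + (t - t_j)(x + y)`, error `≤ R/n`. The set `{t_j x - (1-t_j) y + v : x,y ∈ C, ‖v‖ ≤ R/n}` is compact, of diameter `≤ 1 + 2R/n`; by `G6` its volume is
`≤ vol(ball 1/2) (1 + 2R/n)^n ≤ exp(√2) vol(ball 1/2)`, `exp(√2) ≤ 5`; `n+1` values of j. -/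
def HULL_stmt : Prop := ∀ (n : ℕ) (C : Set (E n)), 0 < n → IsCompact C → C.Nonempty → (∀ x ∈ C, ∀ y ∈ C, ‖x - y‖ ≤ 1) →
  (∀ x ∈ C, ‖x‖ ≤ Real.sqrt (1 / 2)) →
  volume (convexHull ℝ (C ∪ {x | -x ∈ C})) ≤ ENNReal.ofReal (5 * ((n : ℝ) + 1)) * volume (Metric.closedBall (0 : E n) (1 / 2))

/-- from `HULL`, `J1`, `J2`, `J3`: `B = z + convexHull (C' ∪ -C')` is convex, symmetric and contains `C`. -/
def TLOW_stmt : Prop := ∀ (n : ℕ) (C : Set (E n)) (w : ℝ), 0 < n → ConstWidth C w →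
  volume C / (ENNReal.ofReal (5 * ((n : ℝ) + 1)) * volume (Metric.closedBall (0 : E n) (w / 2))) ≤ outerSym C

/-- from `J2` (third part): if `C ⊆ B`, `B` convex and symmetric about `c`, then `c + closedBall 0 (w/2) ⊆ B`, since `2v = x - y` gives
`c + v = (x + (2c - y))/2`. (`outerSym C ≤ vol C / vol ball` as the infimum is at least the volume of the ball.) -/
def TUP_stmt : Prop := ∀ (n : ℕ) (C : Set (E n)) (w : ℝ), ConstWidth C w →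
  outerSym C ≤ volume C / volume (Metric.closedBall (0 : E n) (w / 2))

/-- Chernoff with optimal parameters: for `P, Q > 0` put `a = P^(2/3)`, `b = Q^(2/3)`, `L = a/((a+b) 2 P^2)`, `H = b/((a+b) 2 Q^2)`; the volume is at most
`exp(n(L P^2 + H Q^2)) ∫ exp(-nL pn^2 - nH nn^2) = exp(n/2) (√(π/(nL))/2 + √(π/(nH))/2)^n`, and `exp(1/2) (√(π/L) + √(π/H))/2 = √(2πe)/2 (a+b)^(3/2)`. -/
def MU1_stmt : Prop := ∀ (n : ℕ) (P Q : ℝ), 0 < n → 0 < P → 0 < Q →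
  volume {z : E n | pn z ≤ P ∧ nn z ≤ Q} ≤
    ENNReal.ofReal ((Real.sqrt (2 * Real.pi * Real.exp 1) / 2 * (P ^ ((2 : ℝ) / 3) + Q ^ ((2 : ℝ) / 3)) ^ ((3 : ℝ) / 2)) ^ n /
      (n : ℝ) ^ ((n : ℝ) / 2))

/-- numerical: if `a^3 + b^3 + √2 b^(3/2) ≤ 1/2`, `a, b ≥ 0` then `a + b ≤ 0.9260` (true maximum 0.92575). With `β = √b`, `S = 0.9260`: enough
`(S^3 - 1/2) + √2 β^3 - 3S^2 β^2 + 3S β^4 ≥ 0` for all `β ≥ 0` (minimum near β = 0.5157, value about 0.0003). -/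
def MU2_stmt : Prop := ∀ a b : ℝ, 0 ≤ a → 0 ≤ b → a ^ 3 + b ^ 3 + Real.sqrt 2 * b ^ ((3 : ℝ) / 2) ≤ 1 / 2 → a + b ≤ 0.9260

/-- upper bound for the volume of `M`, from `MU1`, `MU2`: slabs `nn z ∈ [q_j, q_j + h]`, `h = 2.5e-4`, `j < 1200` (`nn z ≤ 1 - 1/√2 < 0.3`), `P_j = √(1/2 - q_j^2 - √2 q_j)`
(`> 0`, if it is 0 the slab has volume 0); `(q_j + h)^(2/3) ≤ q_j^(2/3) + h^(2/3) ≤ q_j^(2/3) + 0.004`; `√(2πe)/2 * 0.93^(3/2) ≤ 1.854`. -/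
def MU3_stmt : Prop := ∀ n : ℕ, 0 < n →
  volume (M n) ≤ ENNReal.ofReal (2000 * 1.854 ^ n / (n : ℝ) ^ ((n : ℝ) / 2))

end Pool.Agent.helper81.CW
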