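import Pool.Agent.helper81.CW.Spec1
import Pool.Agent.helper81.CW.Spec2

/-! # Project cw, module FIN2: the outer measure of symmetry and the minimal volume -/

open MeasureTheory Set
open scoped ENNReal

namespace Pool.Agent.helper81.CW

theorem FIN2_ball {n : ℕ} (hn : 0 < n) {r : ℝ} (hr : 0 ≤ r) :
    volume (Metric.closedBall (0 : E n) r) = ENNReal.ofReal (kap n * r ^ n) := by
  have : Nonempty (Fin n) := ⟨⟨0, hn⟩⟩
  rw [EuclideanSpace.volume_closedBall, Fintype.card_fin, ← ENNReal.ofReal_pow hr,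
    ← ENNReal.ofReal_mul (by positivity), mul_comm]
  rfl

theorem FIN2_kap_pos (n : ℕ) : 0 < kap n := by
  unfold kap
  have : 0 < Real.Gamma ((n : ℝ) / 2 + 1) := Real.Gamma_pos_of_pos (by positivity)
  positivity

theorem FIN2_div (a b c : ℝ≥0∞) (h0 : c ≠ 0) (h1 : c ≠ ∞) : a / b / c = a / (c * b) := by
  simp only [div_eq_mul_inv]
  rw [ENNReal.mul_inv (Or.inl h0) (Or.inl h1), mul_assoc, mul_comm b⁻¹ c⁻¹]

/-- (a) the outer measure of symmetry is the minimal volume ratio up to the factor `5 (n+1)` -/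
theorem FIN2_a (hTLOW : TLOW_stmt) (hTUP : TUP_stmt) {n : ℕ} (hn : 0 < n) :
    mvol n / ENNReal.ofReal (5 * ((n : ℝ) + 1)) ≤ tau n ∧ tau n ≤ mvol n := by
  constructor
  · unfold tau
    refine le_iInf ?_
    rintro ⟨C, w, hC⟩
    have hw : 0 < w := hC.2.2.2.1
    have h1 : mvol n ≤ volume C / volume (Metric.closedBall (0 : E n) (w / 2)) :=
      iInf_le (fun p : {p : Set (E n) × ℝ // ConstWidth p.1 p.2} =>
        volume p.1.1 / volume (Metric.closedBall (0 : E n) (p.1.2 / 2))) ⟨(C, w), hC⟩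
    refine (ENNReal.div_le_div_right h1 _).trans (le_trans (le_of_eq ?_) (hTLOW n C w hn hC))
    apply FIN2_div
    · simp only [ne_eq, ENNReal.ofReal_eq_zero, not_le]
      positivity
    · exact ENNReal.ofReal_ne_top
  · unfold mvol
    refine le_iInf ?_
    rintro ⟨⟨C, w⟩, hC⟩
    exact (iInf_le (fun C : {C : Set (E n) // ∃ w, ConstWidth C w} => outerSym C.1)
      ⟨C, w, hC⟩).trans (hTUP n C w hC)

/-- (b) lower bound for the minimal volume -/
theorem FIN2_b (hJ3 : J3_stmt) (hLOW : LOW_stmt) {n : ℕ} (hn : 0 < n) :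
    ENNReal.ofReal ((max (Real.sqrt 3 - 1 - Real.sqrt (2 / n)) 0) ^ n) ≤ mvol n := by
  unfold mvol
  refine le_iInf ?_
  rintro ⟨⟨C, w⟩, hC⟩
  simp only
  have hw : 0 < w := hC.2.2.2.1
  have hn' : (0 : ℝ) < n := by exact_mod_cast hn
  obtain ⟨h1, h2⟩ := hJ3 n C w w⁻¹ 0 hC (inv_pos.mpr hw)
  rw [inv_mul_cancel₀ hw.ne'] at h1
  obtain ⟨z, -, h3⟩ := hLOW n _ hn h1
  set C' : Set (E n) := (fun x => w⁻¹ • (x - 0)) '' C with hC'
  have h4 : volume {x : E n | z + x ∈ C' ∧ z - x ∈ C'} ≤ volume C' := by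
    have : {x : E n | z + x ∈ C' ∧ z - x ∈ C'} ⊆ (fun x => z + x) ⁻¹' C' := fun x hx => hx.1
    refine (measure_mono this).trans (le_of_eq ?_)
    exact measure_preimage_add volume z C'
  have h5 := h3.trans h4
  rw [h2] at h5
  set a := max ((Real.sqrt 3 - 1) / 2 - 1 / Real.sqrt (2 * n)) 0 with ha
  have ha0 : 0 ≤ a := le_max_right _ _
  have hmax : max (Real.sqrt 3 - 1 - Real.sqrt (2 / n)) 0 = 2 * a := by
    rw [ha, mul_max_of_nonneg _ _ (by norm_num : (0:ℝ) ≤ 2), mul_zero]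
    congr 1
    have : Real.sqrt (2 / n) = 2 * (1 / Real.sqrt (2 * n)) := by
      rw [Real.sqrt_div (by norm_num), Real.sqrt_mul (by norm_num)]
      have h2' : Real.sqrt 2 * Real.sqrt 2 = 2 := Real.mul_self_sqrt (by norm_num)
      have hs2 : 0 < Real.sqrt 2 := Real.sqrt_pos.mpr (by norm_num)
      have hsn : 0 < Real.sqrt n := Real.sqrt_pos.mpr hn'
      field_simp
      nlinarith
    rw [this]; ring
  rw [hmax, FIN2_ball hn (by positivity : 0 ≤ w / 2)]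
  have hkap := FIN2_kap_pos n
  have hpos : 0 < kap n * (w / 2) ^ n := by positivity
  rw [ENNReal.le_div_iff_mul_le (Or.inl (by simpa using hpos)) (Or.inl ENNReal.ofReal_ne_top),
    ← ENNReal.ofReal_mul (by positivity)]
  have h6 : (2 * a) ^ n * (kap n * (w / 2) ^ n) = w ^ n * (kap n * a ^ n) := by
    have : (2 * a) ^ n * (w / 2) ^ n = w ^ n * a ^ n := by
      rw [← mul_pow, ← mul_pow]; congr 1; ring
    linear_combination (kap n) * this
  rw [h6, ENNReal.ofReal_mul (by positivity)]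
  calc ENNReal.ofReal (w ^ n) * ENNReal.ofReal (kap n * a ^ n)
      ≤ ENNReal.ofReal (w ^ n) * (ENNReal.ofReal (w⁻¹ ^ n) * volume C) := by gcongr
    _ = volume C := by
        rw [← mul_assoc, ← ENNReal.ofReal_mul (by positivity), ← mul_pow,
          mul_inv_cancel₀ hw.ne', one_pow, ENNReal.ofReal_one, one_mul]

theorem FIN2_const : (2.066 : ℝ) ≤ Real.sqrt (2 * Real.pi * Real.exp 1) / 2 := by
  have h1 : (4.132 : ℝ) ≤ Real.sqrt (2 * Real.pi * Real.exp 1) := by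
    apply Real.le_sqrt_of_sq_le
    have hp := Real.pi_gt_d6
    have he := Real.exp_one_gt_d9
    have : 2 * 3.141592 * 2.7182818283 ≤ 2 * Real.pi * Real.exp 1 := by
      have := mul_le_mul hp.le he.le (by norm_num) Real.pi_pos.le
      nlinarith
    refine le_trans ?_ this
    norm_num
  linarith

/-- (c) upper bound for the minimal volume -/
theorem FIN2_c (hW1 : W1_stmt) (hW2 : W2_stmt) (hV1 : V1_stmt) (hMU3 : MU3_stmt) :
    ∀ᶠ n : ℕ in Filter.atTop, mvol n ≤ ENNReal.ofReal (0.9 ^ n) := by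
  obtain ⟨c, hc, hV⟩ := hV1
  have h1 : Filter.Tendsto (fun n : ℕ => (n : ℝ) ^ 2 * ((1.854 / 2.066) / 0.9) ^ n) Filter.atTop
      (nhds 0) := by
    apply tendsto_pow_const_mul_const_pow_of_abs_lt_one
    rw [abs_of_pos (by norm_num)]
    norm_num
  have h1' := h1.const_mul (8000 / c)
  rw [mul_zero] at h1'
  have h2 := h1'.eventually_le_const (show (0 : ℝ) < 1 by norm_num)
  filter_upwards [h2, Filter.eventually_ge_atTop 1] with n hn hn1
  have hn1' : (1 : ℝ) ≤ n := by exact_mod_cast hn1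
  have hn' : (0 : ℝ) < n := by linarith
  have hden : (0 : ℝ) < (n : ℝ) ^ ((n : ℝ) / 2) := Real.rpow_pos_of_pos hn' _
  have hcw : ConstWidth (M n) 1 :=
    ⟨(hW1 n).1, (hW1 n).2.1, (hW1 n).2.2, one_pos, fun u hu => hW2 n u hu⟩
  have h3 : mvol n ≤ volume (M n) / volume (Metric.closedBall (0 : E n) (1 / 2)) :=
    iInf_le (fun p : {p : Set (E n) × ℝ // ConstWidth p.1 p.2} =>
        volume p.1.1 / volume (Metric.closedBall (0 : E n) (p.1.2 / 2))) ⟨(M n, 1), hcw⟩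
  refine h3.trans ?_
  rw [FIN2_ball hn1 (by norm_num)]
  -- lower bound of the ball volume
  have h4 : c / ((n : ℝ) + 1) ^ 2 * 2.066 ^ n / (n : ℝ) ^ ((n : ℝ) / 2) ≤ kap n * (1 / 2) ^ n := by
    have h5 : (2.066 : ℝ) ^ n ≤ (2 * Real.pi * Real.exp 1) ^ ((n : ℝ) / 2) * (1 / 2) ^ n := by
      have h6 : (2 * Real.pi * Real.exp 1) ^ ((n : ℝ) / 2) =
          Real.sqrt (2 * Real.pi * Real.exp 1) ^ n := by
        rw [Real.sqrt_eq_rpow, ← Real.rpow_natCast, ← Real.rpow_mul (by positivity)]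
        congr 1; ring
      rw [h6, ← mul_pow]
      apply pow_le_pow_left₀ (by norm_num)
      have := FIN2_const
      linarith
    calc c / ((n : ℝ) + 1) ^ 2 * 2.066 ^ n / (n : ℝ) ^ ((n : ℝ) / 2)
        ≤ c / ((n : ℝ) + 1) ^ 2 * ((2 * Real.pi * Real.exp 1) ^ ((n : ℝ) / 2) * (1 / 2) ^ n) /
          (n : ℝ) ^ ((n : ℝ) / 2) := by
          apply div_le_div_of_nonneg_right _ hden.le
          exact mul_le_mul_of_nonneg_left h5 (by positivity)
      _ = (c / ((n : ℝ) + 1) ^ 2 * (2 * Real.pi * Real.exp 1) ^ ((n : ℝ) / 2) /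
          (n : ℝ) ^ ((n : ℝ) / 2)) * (1 / 2) ^ n := by ring
      _ ≤ kap n * (1 / 2) ^ n := mul_le_mul_of_nonneg_right (hV n) (by positivity)
  have hpos : (0 : ℝ) < c / ((n : ℝ) + 1) ^ 2 * 2.066 ^ n / (n : ℝ) ^ ((n : ℝ) / 2) := by positivity
  have h3' : ((n : ℝ) + 1) ^ 2 ≤ 4 * (n : ℝ) ^ 2 := by nlinarith
  have h7 : (2000 * 1.854 ^ n / (n : ℝ) ^ ((n : ℝ) / 2)) /
      (c / ((n : ℝ) + 1) ^ 2 * 2.066 ^ n / (n : ℝ) ^ ((n : ℝ) / 2)) ≤ 0.9 ^ n := by
    have e1 : (2000 * 1.854 ^ n / (n : ℝ) ^ ((n : ℝ) / 2)) /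
        (c / ((n : ℝ) + 1) ^ 2 * 2.066 ^ n / (n : ℝ) ^ ((n : ℝ) / 2)) =
        2000 * ((n : ℝ) + 1) ^ 2 / c * (1.854 / 2.066) ^ n := by
      rw [div_pow]
      field_simp
    rw [e1]
    have e2 : ((1.854 / 2.066 : ℝ)) ^ n = ((1.854 / 2.066) / 0.9) ^ n * 0.9 ^ n := by
      rw [← mul_pow]; congr 1; norm_num
    rw [e2]
    have e3 : 2000 * ((n : ℝ) + 1) ^ 2 / c * ((1.854 / 2.066) / 0.9) ^ n ≤ 1 := by
      refine le_trans ?_ hn
      rw [← mul_assoc]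
      apply mul_le_mul_of_nonneg_right _ (by positivity)
      rw [div_mul_eq_mul_div]
      apply div_le_div_of_nonneg_right _ hc.le
      linarith
    calc 2000 * ((n : ℝ) + 1) ^ 2 / c * (((1.854 / 2.066) / 0.9) ^ n * 0.9 ^ n)
        = (2000 * ((n : ℝ) + 1) ^ 2 / c * ((1.854 / 2.066) / 0.9) ^ n) * 0.9 ^ n := by ring
      _ ≤ 1 * 0.9 ^ n := mul_le_mul_of_nonneg_right e3 (by positivity)
      _ = 0.9 ^ n := one_mul _
  calc volume (M n) / ENNReal.ofReal (kap n * (1 / 2) ^ n)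
      ≤ ENNReal.ofReal (2000 * 1.854 ^ n / (n : ℝ) ^ ((n : ℝ) / 2)) /
        ENNReal.ofReal (c / ((n : ℝ) + 1) ^ 2 * 2.066 ^ n / (n : ℝ) ^ ((n : ℝ) / 2)) :=
        ENNReal.div_le_div (hMU3 n hn1) (ENNReal.ofReal_le_ofReal h4)
    _ = ENNReal.ofReal ((2000 * 1.854 ^ n / (n : ℝ) ^ ((n : ℝ) / 2)) /
        (c / ((n : ℝ) + 1) ^ 2 * 2.066 ^ n / (n : ℝ) ^ ((n : ℝ) / 2))) := by
        rw [ENNReal.ofReal_div_of_pos hpos]
    _ ≤ ENNReal.ofReal (0.9 ^ n) := ENNReal.ofReal_le_ofReal h7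

/-- the theorem on the outer measure of symmetry -/
theorem FIN2 (hW1 : W1_stmt) (hW2 : W2_stmt) (hV1 : V1_stmt) (hMU3 : MU3_stmt)
    (hTLOW : TLOW_stmt) (hTUP : TUP_stmt) (hJ3 : J3_stmt) (hLOW : LOW_stmt) :
    (∀ n : ℕ, 0 < n →
      mvol n / ENNReal.ofReal (5 * ((n : ℝ) + 1)) ≤ tau n ∧ tau n ≤ mvol n ∧
      ENNReal.ofReal ((max (Real.sqrt 3 - 1 - Real.sqrt (2 / n)) 0) ^ n / (5 * ((n : ℝ) + 1))) ≤
        tau n) ∧
    ∀ᶠ n : ℕ in Filter.atTop, tau n ≤ ENNReal.ofReal (0.9 ^ n) := by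
  refine ⟨fun n hn => ⟨(FIN2_a hTLOW hTUP hn).1, (FIN2_a hTLOW hTUP hn).2, ?_⟩, ?_⟩
  · have h1 := FIN2_b hJ3 hLOW hn
    have h2 := (FIN2_a hTLOW hTUP hn).1
    refine le_trans ?_ ((ENNReal.div_le_div_right h1 _).trans h2)
    rw [ENNReal.ofReal_div_of_pos (by positivity)]
  · filter_upwards [FIN2_c hW1 hW2 hV1 hMU3, Filter.eventually_ge_atTop 1] with n h hn1
    exact (FIN2_a hTLOW hTUP hn1).2.trans h

end Pool.Agent.helper81.CW
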