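import Pool.Agent.helper81.CW.LOWS
import Pool.Agent.helper81.CW.FIN2

/-! # Project cw, module VLOW: Schramm's lower bound for the volume of a body of constant width -/

open MeasureTheory Set
open scoped ENNReal

namespace Pool.Agent.helper81.CW

/-- Schramm's theorem, for width 1 -/
theorem VLOW (g1 : G1_stmt) (g5 : G5_stmt) (j2 : J2_stmt) (j3 : J3_stmt)
    (j4 : J4_stmt) (n : ℕ) (C : Set (E n)) (hn : 0 < n)
    (hC : ConstWidth C 1) :
    ENNReal.ofReal (kap n * ((Real.sqrt (3 + 2 / ((n : ℝ) + 1)) - 1) / 2) ^ n) ≤ volume C := by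
  obtain ⟨hne, hcomp, hconv, hw, hwid⟩ := id hC
  obtain ⟨hdiam, -, -⟩ := j2 n C 1 hC
  obtain ⟨z, R, hR0, hR2', hzR⟩ := JS n C hcomp hne hdiam
  obtain ⟨hC'0, hvol⟩ := j3 n C 1 1 z hC one_pos
  set C' : Set (E n) := (fun x => (1 : ℝ) • (x - z)) '' C with hC'def
  rw [one_mul] at hC'0
  rw [one_pow, ENNReal.ofReal_one, one_mul] at hvol
  rw [← hvol]
  have hn1 : (0 : ℝ) < (n : ℝ) + 1 := by positivity
  have hb2 : (1 : ℝ) / 2 + 1 / (2 * ((n : ℝ) + 1)) ≤ 1 - R ^ 2 := by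
    have h2 : (n : ℝ) / (2 * (n + 1)) = 1 / 2 - 1 / (2 * ((n : ℝ) + 1)) := by
      field_simp
      ring
    linarith
  have hpos1 : 0 < 1 / (2 * ((n : ℝ) + 1)) := by positivity
  have hb : (0 : ℝ) < 1 - R ^ 2 := by linarith
  have hR1 : R < 1 := by
    by_contra h
    push Not at h
    nlinarith
  have hne' : C'.Nonempty := hne.image _
  have hR' : ∀ x ∈ C', ‖x‖ ≤ R := by
    rintro _ ⟨x, hx, rfl⟩
    simpa using hzR x hx
  obtain ⟨hle, hLip, hhom⟩ := j4 n C' R hne' hR0 hR'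
  have hs0 : supp C' 0 = 0 := LOW_supp_zero C' hne'
  have hcont : Continuous (supp C') := by
    have hL : LipschitzWith R.toNNReal (supp C') := by
      refine LipschitzWith.of_dist_le_mul fun x y => ?_
      rw [Real.dist_eq, dist_eq_norm, Real.coe_toNNReal R hR0]
      exact hLip x y
    exact hL.continuous
  -- normalised support function
  obtain ⟨d, hd⟩ : ∃ d : E n → ℝ, ∀ x, d x = supp C' x / ‖x‖ := ⟨_, fun _ => rfl⟩
  have hdM : Measurable d := by
    have h1 : d = fun x => supp C' x / ‖x‖ := funext hd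
    rw [h1]
    exact hcont.measurable.div measurable_norm
  have hdB : ∀ x, |d x| ≤ R := by
    intro x
    rw [hd, abs_div, abs_norm]
    have h1 : |supp C' x| ≤ R * ‖x‖ := by
      have h := hLip x 0
      rw [hs0, sub_zero, sub_zero] at h
      exact h
    by_cases hx : ‖x‖ = 0
    · rw [hx, div_zero]; exact hR0
    · have hxp : 0 < ‖x‖ := lt_of_le_of_ne (norm_nonneg x) (Ne.symm hx)
      rw [div_le_iff₀ hxp]
      exact h1
  have hdsum : ∀ x, x ≠ 0 → d x + d (-x) = 1 := by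
    intro x hx
    have hxp : 0 < ‖x‖ := norm_pos_iff.mpr hx
    have h1 : ‖(‖x‖⁻¹ : ℝ) • x‖ = 1 := by
      rw [norm_smul, norm_inv, norm_norm, inv_mul_cancel₀ hxp.ne']
    have h2 := hC'0.2.2.2.2 _ h1
    rw [← smul_neg, hhom x _ (inv_nonneg.mpr hxp.le), hhom (-x) _ (inv_nonneg.mpr hxp.le)] at h2
    rw [hd, hd, norm_neg, div_eq_inv_mul, div_eq_inv_mul]
    exact h2
  have hd0 : d 0 = 0 := by rw [hd, norm_zero, div_zero]
  have hdsum' : ∀ x, d x + d (-x) ≤ 1 := by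
    intro x
    by_cases hx : x = 0
    · rw [hx, neg_zero, hd0]; norm_num
    · exact (hdsum x hx).le
  have hdnn : ∀ x, 0 ≤ d (-x) := by
    intro x
    by_cases hx : x = 0
    · rw [hx, neg_zero, hd0]
    · have h1 := hdsum x hx
      have h2 := le_of_abs_le (hdB x)
      linarith
  -- f
  obtain ⟨ph, hph⟩ : ∃ ph : ℝ → ℝ, ∀ t, ph t = -t + Real.sqrt (t ^ 2 + (1 - R ^ 2)) :=
    ⟨_, fun _ => rfl⟩
  have hphC : Continuous ph := by
    have h1 : ph = fun t => -t + Real.sqrt (t ^ 2 + (1 - R ^ 2)) := funext hph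
    rw [h1]
    fun_prop
  have hph1 : ∀ t, 0 ≤ t → 0 ≤ ph t ∧ ph t ≤ 1 := by
    intro t ht
    rw [hph]
    have h2 : t ≤ Real.sqrt (t ^ 2 + (1 - R ^ 2)) := by
      apply Real.le_sqrt_of_sq_le; linarith
    have h4 : Real.sqrt (t ^ 2 + (1 - R ^ 2)) ≤ 1 + t := by
      rw [Real.sqrt_le_left (by linarith)]; nlinarith [sq_nonneg R]
    exact ⟨by linarith, by linarith⟩
  have hfM : Measurable fun x => ph (d (-x)) :=
    hphC.measurable.comp (hdM.comp measurable_neg)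
  have hfhom : ∀ (x : E n) (t : ℝ), 0 < t → ph (d (-(t • x))) = ph (d (-x)) := by
    intro x t ht
    have h1 : d (-(t • x)) = d (-x) := by
      rw [hd, hd, ← smul_neg, hhom (-x) t ht.le, norm_smul, Real.norm_of_nonneg ht.le,
        mul_div_mul_left _ _ ht.ne']
    rw [h1]
  have hG5 := g5 n (fun x => ph (d (-x))) hn hfM (fun x => (hph1 _ (hdnn x)).1)
    (fun x => (hph1 _ (hdnn x)).2) hfhom
  -- the integral
  have : IsProbabilityMeasure (gm n) := (g1 n).1
  have hdI : Integrable d (gm n) := by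
    refine Integrable.of_bound hdM.aestronglyMeasurable R ?_
    exact Filter.Eventually.of_forall fun x => hdB x
  have hdI' : Integrable (fun x => d (-x)) (gm n) := by
    refine Integrable.of_bound (hdM.comp measurable_neg).aestronglyMeasurable R ?_
    exact Filter.Eventually.of_forall fun x => hdB (-x)
  have hfI : Integrable (fun x => ph (d (-x))) (gm n) := by
    refine Integrable.of_bound hfM.aestronglyMeasurable 1 ?_
    refine Filter.Eventually.of_forall fun x => ?_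
    rw [Real.norm_of_nonneg (hph1 _ (hdnn x)).1]
    exact (hph1 _ (hdnn x)).2
  have hinv : ∫ x, d (-x) ∂(gm n) = ∫ x, d x ∂(gm n) := by
    have h1 := (g1 n).2
    calc ∫ x, d (-x) ∂(gm n) = ∫ x, d x ∂(Measure.map (fun x : E n => -x) (gm n)) := by
          rw [integral_map (measurable_neg.aemeasurable) hdM.aestronglyMeasurable]
      _ = ∫ x, d x ∂(gm n) := by rw [h1]
  have hhalf : ∫ x, d (-x) ∂(gm n) ≤ 1 / 2 := by
    have h1 : ∫ x, (d x + d (-x)) ∂(gm n) ≤ ∫ _x, (1 : ℝ) ∂(gm n) :=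
      integral_mono (hdI.add hdI') (integrable_const _) hdsum'
    rw [integral_add hdI hdI', integral_const, probReal_univ, smul_eq_mul, one_mul, ← hinv] at h1
    linarith
  set m : ℝ := 1 - (1 / 2 : ℝ) / Real.sqrt ((1 / 2) ^ 2 + (1 - R ^ 2)) with hm
  have hm0 : 0 ≤ m := LOWS_slope hb
  set v : ℝ := -(1 / 2 : ℝ) + Real.sqrt ((1 / 2) ^ 2 + (1 - R ^ 2)) with hv
  have hvlow : (Real.sqrt (3 + 2 / ((n : ℝ) + 1)) - 1) / 2 ≤ v := by
    have h1 : Real.sqrt (3 + 2 / ((n : ℝ) + 1)) / 2 ≤ Real.sqrt ((1 / 2) ^ 2 + (1 - R ^ 2)) := by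
      apply Real.le_sqrt_of_sq_le
      rw [div_pow, Real.sq_sqrt (by positivity)]
      have h2 : (3 + 2 / ((n : ℝ) + 1)) / 2 ^ 2 = 1 / 4 + (1 / 2 + 1 / (2 * ((n : ℝ) + 1))) := by
        field_simp
        ring
      rw [h2]
      linarith
    rw [hv]
    linarith
  have hint : v ≤ ∫ x, ph (d (-x)) ∂(gm n) := by
    have h1 : ∫ x, (v + m * (1 / 2) - m * d (-x)) ∂(gm n) ≤ ∫ x, ph (d (-x)) ∂(gm n) := by
      refine integral_mono ((integrable_const _).sub (hdI'.const_mul m)) hfI fun x => ?_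
      have h2 := LOWS_tangent (b := 1 - R ^ 2) (t := d (-x)) (t0 := 1 / 2) hb
      have h4 : v + m * (1 / 2) - m * d (-x) = v + m * (1 / 2 - d (-x)) := by ring
      rw [h4, hph]
      exact h2
    rw [integral_sub (integrable_const _) (hdI'.const_mul m), integral_const_mul, integral_const,
      probReal_univ, smul_eq_mul, one_mul] at h1
    have h4 : 0 ≤ m * (1 / 2 - ∫ x, d (-x) ∂(gm n)) := mul_nonneg hm0 (by linarith)
    linarith
  -- the inclusion
  have hsub : {x : E n | ‖x‖ ≤ ph (d (-x))} ⊆ C' := by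
    intro x hx
    have hx' : ‖x‖ ≤ ph (d (-x)) := hx
    have key : ‖x‖ ^ 2 + 2 * supp C' (-x) + R ^ 2 ≤ 1 := by
      have ht : supp C' (-x) = ‖x‖ * d (-x) := by
        by_cases hx0 : x = 0
        · rw [hx0, neg_zero, hs0, norm_zero, zero_mul]
        · have hxp : 0 < ‖x‖ := norm_pos_iff.mpr hx0
          rw [hd, norm_neg]
          field_simp
      rw [ht]
      rw [hph] at hx'
      have h5 : ‖x‖ + d (-x) ≤ Real.sqrt (d (-x) ^ 2 + (1 - R ^ 2)) := by linarith
      have h6 : 0 ≤ ‖x‖ + d (-x) := add_nonneg (norm_nonneg _) (hdnn x)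
      have h8 : (‖x‖ + d (-x)) ^ 2 ≤ d (-x) ^ 2 + (1 - R ^ 2) := by
        have h9 := pow_le_pow_left₀ h6 h5 2
        rwa [Real.sq_sqrt (by positivity)] at h9
      nlinarith
    refine (j2 n C' 1 hC'0).2.1 x fun y hy => ?_
    have h1 : ‖x - y‖ ^ 2 ≤ 1 := by
      rw [norm_sub_sq_real]
      have h2 := hle y hy (-x)
      rw [inner_neg_left] at h2
      have h3 : ‖y‖ ^ 2 ≤ R ^ 2 := pow_le_pow_left₀ (norm_nonneg _) (hR' y hy) 2
      linarith
    nlinarith [norm_nonneg (x - y)]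
  refine le_trans ?_ (hG5.trans (measure_mono hsub))
  apply ENNReal.ofReal_le_ofReal
  apply mul_le_mul_of_nonneg_left _ (LOW_kap_nonneg n)
  refine pow_le_pow_left₀ ?_ (hvlow.trans hint) n
  have h1 : 1 ≤ Real.sqrt (3 + 2 / ((n : ℝ) + 1)) := by
    apply Real.le_sqrt_of_sq_le
    have : 0 < 2 / ((n : ℝ) + 1) := by positivity
    linarith
  linarith

/-- Schramm's theorem for the minimal volume ratio -/
theorem VLOW_mvol (g1 : G1_stmt) (g5 : G5_stmt) (j2 : J2_stmt) (j3 : J3_stmt)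
    (j4 : J4_stmt) {n : ℕ} (hn : 0 < n) :
    ENNReal.ofReal ((Real.sqrt (3 + 2 / ((n : ℝ) + 1)) - 1) ^ n) ≤ mvol n := by
  unfold mvol
  refine le_iInf ?_
  rintro ⟨⟨C, w⟩, hC⟩
  simp only
  have hw : 0 < w := hC.2.2.2.1
  have hn' : (0 : ℝ) < n := by exact_mod_cast hn
  obtain ⟨h1, h2⟩ := j3 n C w w⁻¹ 0 hC (inv_pos.mpr hw)
  rw [inv_mul_cancel₀ hw.ne'] at h1
  have h5 := VLOW g1 g5 j2 j3 j4 n _ hn h1
  rw [h2] at h5
  set a := (Real.sqrt (3 + 2 / ((n : ℝ) + 1)) - 1) / 2 with ha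
  have ha0 : 0 ≤ a := by
    have h1 : 1 ≤ Real.sqrt (3 + 2 / ((n : ℝ) + 1)) := by
      apply Real.le_sqrt_of_sq_le
      have : 0 < 2 / ((n : ℝ) + 1) := by positivity
      linarith
    rw [ha]
    linarith
  have hmax : Real.sqrt (3 + 2 / ((n : ℝ) + 1)) - 1 = 2 * a := by rw [ha]; ring
  rw [hmax, FIN2_ball hn (by positivity : 0 ≤ w / 2)]
  have hkap := FIN2_kap_pos n
  have hpos : 0 < kap n * (w / 2) ^ n := by positivity
  rw [ENNReal.le_div_iff_mul_le (Or.inl (by simpa using hpos)) (Or.inl ENNReal.ofReal_ne_top),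
    ← ENNReal.ofReal_mul (by positivity)]
  have h6 : (2 * a) ^ n * (kap n * (w / 2) ^ n) = w ^ n * (kap n * a ^ n) := by
    have : (2 * a) ^ n * (w / 2) ^ n = w ^ n * a ^ n := by
      rw [← mul_pow, ← mul_pow]; congr 1; ring
    linear_combination (kap n) * this
  rw [h6, ENNReal.ofReal_mul (by positivity)]
  calc ENNReal.ofReal (w ^ n) * ENNReal.ofReal (kap n * a ^ n)
      ≤ ENNReal.ofReal (w ^ n) * (ENNReal.ofReal (w⁻¹ ^ n) * volume C) := by gcongr
    _ = volume C := by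
        rw [← mul_assoc, ← ENNReal.ofReal_mul (by positivity), ← mul_pow,
          mul_inv_cancel₀ hw.ne', one_pow, ENNReal.ofReal_one, one_mul]

end Pool.Agent.helper81.CW
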