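import Pool.Agent.helper81.CW.SLOWS
import Pool.Agent.helper81.CW.VLOW
import Pool.Agent.helper81.CW.J5b
import Pool.Agent.helper81.CW.J6b
import Pool.Agent.helper74.CW.G1
import Pool.Agent.helper74.CW.G2
import Pool.Agent.helper63.CW.G3
import Pool.Agent.helper91.CW.G4
import Pool.Agent.helper23.CW.G5
import Pool.Agent.helper64.CW.G6
import Pool.Agent.helper11.CW.J1
import Pool.Agent.helper4.CW.J2
import Pool.Agent.helper1.CW.J3
import Pool.Agent.helper65.CW.J4
import Pool.Agent.helper93.CW.HULL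
import Pool.Agent.helper79.CW.TLOW
import Pool.Agent.helper92.CW.TUP
import Pool.Agent.helper81.CW.Upper

/-! # Project cw: the unconditional lower bounds and the outer measure -/

open MeasureTheory Set
open scoped ENNReal

namespace Pool.Agent.helper81.CW

theorem lower_G3 : G3_stmt := G3 G1 G2

theorem lower_G5 : G5_stmt := G5 G1

theorem lower_J5 : J5_stmt := J5b J2 J4

theorem lower_J6 : J6_stmt := J6b G1 lower_G3 G4 J4

/-- lower bound for the inner measure of symmetry -/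
theorem lower_sigma (n : ℕ) (hn : 0 < n) (s : ℝ) (hs : s = Real.sqrt (2 / ((n : ℝ) + 1))) :
    ENNReal.ofReal ((Real.sqrt (3 + 2 * s + 2 * s ^ 2) - 1 - s) ^ n) ≤ sigma n :=
  SLOWS G1 lower_G5 G6 J2 J3 J4 lower_J5 lower_J6 n hn s hs

/-- Schramm's lower bound for the minimal volume -/
theorem lower_mvol {n : ℕ} (hn : 0 < n) :
    ENNReal.ofReal ((Real.sqrt (3 + 2 / ((n : ℝ) + 1)) - 1) ^ n) ≤ mvol n :=
  VLOW_mvol G1 lower_G5 J2 J3 J4 hn

theorem lower_tau {n : ℕ} (hn : 0 < n) :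
    mvol n / ENNReal.ofReal (5 * ((n : ℝ) + 1)) ≤ tau n ∧ tau n ≤ mvol n :=
  FIN2_a (TLOW (HULL G6) J1 J2 J3) (TUP J2) hn

theorem upper_mvol : ∀ᶠ n : ℕ in Filter.atTop, mvol n ≤ ENNReal.ofReal (0.9 ^ n) :=
  FIN2_c W1 W2 V1 upper_MU3

end Pool.Agent.helper81.CW
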