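import Pool.Agent.helper81.CW.LOWS

/-!
# cw:SLOWS - sharp lower bound for `sigma` (after module SLOW of helper21)
-/

open MeasureTheory Set
open scoped ENNReal Pointwise

namespace Pool.Agent.helper81.CW

theorem SLOWS_gen (hJ2 : J2_stmt) (hJ3 : J3_stmt) (hG6 : G6_stmt) {n : ℕ} (hn : 0 < n) {m : ℝ}
    (hm0 : 0 ≤ m) (hLOW : ∀ C : Set (E n), ConstWidth C 1 → ∃ z : E n,
      ENNReal.ofReal (kap n * m ^ n) ≤ volume {x : E n | z + x ∈ C ∧ z - x ∈ C}) :
    ENNReal.ofReal ((2 * m) ^ n) ≤ sigma n := by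
  have hne : Nonempty (Fin n) := ⟨⟨0, hn⟩⟩
  refine le_iInf ?_
  rintro ⟨C, w, hC⟩
  change _ ≤ innerSym C
  have hn0 : (0 : ℝ) < n := by exact_mod_cast hn
  have hw : 0 < w := hC.2.2.2.1
  by_cases hmz : m = 0
  · rw [hmz, mul_zero, zero_pow hn.ne', ENNReal.ofReal_zero]
    exact bot_le
  have hmpos : 0 < m := lt_of_le_of_ne hm0 (Ne.symm hmz)
  have hC' := (hJ3 n C w w⁻¹ 0 hC (inv_pos.2 hw)).1
  rw [inv_mul_cancel₀ hw.ne'] at hC'
  set C' : Set (E n) := (fun x => w⁻¹ • (x - 0)) '' C with hC'def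
  have hmem : ∀ x : E n, x ∈ C' ↔ w • x ∈ C := by
    intro x
    constructor
    · rintro ⟨y, hy, rfl⟩
      simp only [sub_zero]
      rwa [smul_smul, mul_inv_cancel₀ hw.ne', one_smul]
    · intro h
      refine ⟨w • x, h, ?_⟩
      simp only [sub_zero]
      rw [smul_smul, inv_mul_cancel₀ hw.ne', one_smul]
  obtain ⟨z, hz⟩ := hLOW C' hC'
  set S : Set (E n) := {x : E n | z + x ∈ C' ∧ z - x ∈ C'} with hS
  set A : Set (E n) := {y | y ∈ C ∧ (2 : ℝ) • (w • z) - y ∈ C} with hA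
  have hAC : A ⊆ C := fun y hy => hy.1
  have hAconv : Convex ℝ A := by
    intro x hx y hy a b ha hb hab
    refine ⟨hC.2.2.1 hx.1 hy.1 ha hb hab, ?_⟩
    have : (2 : ℝ) • (w • z) - (a • x + b • y) =
        a • ((2 : ℝ) • (w • z) - x) + b • ((2 : ℝ) • (w • z) - y) := by
      have hb' : b = 1 - a := by linarith
      rw [hb']
      module
    rw [this]
    exact hC.2.2.1 hx.2 hy.2 ha hb hab
  have hAsym : CentrallySymmetric A := by
    refine ⟨w • z, fun x => ?_⟩
    rw [hA]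
    simp only [mem_ofPred_eq, sub_sub_cancel]
    exact and_comm
  -- volume of `A`
  have hvol : volume A = ENNReal.ofReal (w ^ n) * volume S := by
    have h1 : A = w • ((fun x => -z + x) ⁻¹' S) := by
      ext y
      rw [Set.mem_smul_set_iff_inv_smul_mem₀ hw.ne', mem_preimage, hS, hA]
      simp only [mem_ofPred_eq]
      rw [hmem, hmem]
      have e1 : w • (z + (-z + w⁻¹ • y)) = y := by
        rw [add_neg_cancel_left, smul_smul, mul_inv_cancel₀ hw.ne', one_smul]
      have e2 : w • (z - (-z + w⁻¹ • y)) = (2 : ℝ) • (w • z) - y := by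
        rw [smul_sub, smul_add, smul_smul, mul_inv_cancel₀ hw.ne', one_smul, smul_neg, two_smul]
        abel
      rw [e1, e2]
    rw [h1, Measure.addHaar_smul, measure_preimage_add, finrank_euclideanSpace_fin,
      abs_of_pos (by positivity)]
  have hCmeas : MeasurableSet C := hC.2.1.isClosed.measurableSet
  have hCtop : volume C ≠ ∞ := hC.2.1.measure_lt_top.ne
  have hCle : volume C ≤ volume (Metric.closedBall (0 : E n) (w / 2)) :=
    hG6 n C w hCmeas hw.le (hJ2 n C w hC).1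
  rw [EuclideanSpace.volume_closedBall, Fintype.card_fin] at hCle
  have hkap : ENNReal.ofReal (Real.sqrt Real.pi ^ n / Real.Gamma ((n : ℝ) / 2 + 1)) =
      ENNReal.ofReal (kap n) := rfl
  rw [hkap] at hCle
  have hkpos : 0 < kap n := by
    unfold kap
    have : 0 < Real.Gamma ((n : ℝ) / 2 + 1) := Real.Gamma_pos_of_pos (by positivity)
    positivity
  have hvA : ENNReal.ofReal (w ^ n) * ENNReal.ofReal (kap n * m ^ n) ≤ volume A := by
    rw [hvol]
    exact mul_le_mul_right hz _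
  have hvApos : volume A ≠ 0 := by
    intro h
    rw [h, nonpos_iff_eq_zero, ← ENNReal.ofReal_mul (by positivity), ENNReal.ofReal_eq_zero] at hvA
    have : 0 < w ^ n * (kap n * m ^ n) := by positivity
    linarith
  have hC0 : volume C ≠ 0 := by
    intro h
    exact hvApos (le_antisymm (h ▸ measure_mono hAC) bot_le)
  have hkey : ENNReal.ofReal ((2 * m) ^ n) ≤ volume A / volume C := by
    rw [ENNReal.le_div_iff_mul_le (Or.inl hC0) (Or.inl hCtop)]
    calc ENNReal.ofReal ((2 * m) ^ n) * volume C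
        ≤ ENNReal.ofReal ((2 * m) ^ n) *
            (ENNReal.ofReal (w / 2) ^ n * ENNReal.ofReal (kap n)) := mul_le_mul_right hCle _
      _ = ENNReal.ofReal (w ^ n) * ENNReal.ofReal (kap n * m ^ n) := by
          rw [← ENNReal.ofReal_pow (by positivity), ← ENNReal.ofReal_mul (by positivity),
            ← ENNReal.ofReal_mul (by positivity), ← ENNReal.ofReal_mul (by positivity)]
          congr 1
          rw [mul_pow, div_pow]
          field_simp
      _ ≤ volume A := hvA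
  refine hkey.trans ?_
  unfold innerSym
  exact ENNReal.div_le_div_right (le_iSup (fun A : {A : Set (E n) // A ⊆ C ∧ Convex ℝ A ∧
    CentrallySymmetric A} => volume A.1) ⟨A, hAC, hAconv, hAsym⟩) _

/-- sharp lower bound for the inner measure of symmetry -/
theorem SLOWS (g1 : G1_stmt) (g5 : G5_stmt) (g6 : G6_stmt) (j2 : J2_stmt) (j3 : J3_stmt)
    (j4 : J4_stmt) (j5 : J5_stmt) (j6 : J6_stmt) (n : ℕ) (hn : 0 < n) (s : ℝ)
    (hs : s = Real.sqrt (2 / ((n : ℝ) + 1))) :
    ENNReal.ofReal ((Real.sqrt (3 + 2 * s + 2 * s ^ 2) - 1 - s) ^ n) ≤ sigma n := by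
  have hs0 : 0 ≤ s := by rw [hs]; exact Real.sqrt_nonneg _
  have h1 : 1 + s ≤ Real.sqrt (3 + 2 * s + 2 * s ^ 2) := by
    apply Real.le_sqrt_of_sq_le
    nlinarith [sq_nonneg s]
  have h2 := SLOWS_gen j2 j3 g6 hn (m := (Real.sqrt (3 + 2 * s + 2 * s ^ 2) - 1 - s) / 2)
    (by linarith) (fun C hC => LOWS g1 g5 j2 j3 j4 j5 j6 n C hn hC s hs)
  have h3 : 2 * ((Real.sqrt (3 + 2 * s + 2 * s ^ 2) - 1 - s) / 2) =
      Real.sqrt (3 + 2 * s + 2 * s ^ 2) - 1 - s := by ring
  rwa [h3] at h2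

end Pool.Agent.helper81.CW

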