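import Mathlib

/-! # Project cw (MP_447e26_gt): volume asymmetry of bodies of constant width. Definitions. -/

open MeasureTheory Set
open scoped ENNReal

namespace Pool.Agent.helper81.CW

/-- `d`-dimensional Euclidean space -/
abbrev E (d : ℕ) := EuclideanSpace ℝ (Fin d)

/-- support function of `C` in direction `u` -/
noncomputable def supp {d : ℕ} (C : Set (E d)) (u : E d) : ℝ := sSup ((fun x => (inner ℝ u x : ℝ)) '' C)

/-- `C` is a body of constant width `w > 0`: compact, convex, nonempty, and the two supporting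
hyperplanes orthogonal to `u` are at distance `w` for every unit vector `u` -/
def ConstWidth {d : ℕ} (C : Set (E d)) (w : ℝ) : Prop :=
  C.Nonempty ∧ IsCompact C ∧ Convex ℝ C ∧ 0 < w ∧
    ∀ u : E d, ‖u‖ = 1 → supp C u + supp C (-u) = w

/-- `K` is centrally symmetric: `K = 2c - K` for some point `c` -/
def CentrallySymmetric {d : ℕ} (K : Set (E d)) : Prop :=
  ∃ c : E d, ∀ x : E d, x ∈ K ↔ (2 : ℝ) • c - x ∈ K

/-- inner (Kovner-Besicovitch) measure of symmetry -/
noncomputable def innerSym {d : ℕ} (C : Set (E d)) : ℝ≥0∞ :=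
  (⨆ A : {A : Set (E d) // A ⊆ C ∧ Convex ℝ A ∧ CentrallySymmetric A}, volume A.1) / volume C

/-- outer (Estermann) measure of symmetry -/
noncomputable def outerSym {d : ℕ} (C : Set (E d)) : ℝ≥0∞ :=
  volume C / (⨅ B : {B : Set (E d) // C ⊆ B ∧ Convex ℝ B ∧ CentrallySymmetric B}, volume B.1)

/-- `σ_d`: infimum of the inner measure of symmetry over all bodies of constant width -/
noncomputable def sigma (d : ℕ) : ℝ≥0∞ :=
  ⨅ C : {C : Set (E d) // ∃ w, ConstWidth C w}, innerSym C.1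

/-- `τ_d`: infimum of the outer measure of symmetry over all bodies of constant width -/
noncomputable def tau (d : ℕ) : ℝ≥0∞ :=
  ⨅ C : {C : Set (E d) // ∃ w, ConstWidth C w}, outerSym C.1

/-- Euclidean norm of the negative part -/
noncomputable def nn {n : ℕ} (z : E n) : ℝ := Real.sqrt (∑ i, (min (z i) 0) ^ 2)

/-- Euclidean norm of the positive part -/
noncomputable def pn {n : ℕ} (z : E n) : ℝ := Real.sqrt (∑ i, (max (z i) 0) ^ 2)

/-- the body of Arman, Bondarenko, Nazarov, Prymak and Radchenko, scaled to width 1 -/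
def M (n : ℕ) : Set (E n) := {z | ‖z‖ ^ 2 + Real.sqrt 2 * nn z ≤ 1 / 2}

/-- volume of the unit ball -/
noncomputable def kap (m : ℕ) : ℝ := Real.sqrt Real.pi ^ m / Real.Gamma ((m : ℝ) / 2 + 1)

/-- the set containing all `x - c`, `x` in a subset of `M n` symmetric about `c` -/
def T {n : ℕ} (c : E n) : Set (E n) :=
  {b | ‖b‖ ^ 2 + 2 * |inner ℝ c b| ≤ 1 / 2 - ‖c‖ ^ 2 ∧
    ∑ i, (max (|b i| - |c i|) 0) ^ 2 ≤ (1 / 2 - ‖c‖ ^ 2 - ‖b‖ ^ 2) ^ 2 + 4 * (inner ℝ c b) ^ 2}

end Pool.Agent.helper81.CW
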