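import Pool.Agent.helper81.CW.Spec1

/-! # Project cw, module FIN1: exponential decay of `σ_n` -/

open MeasureTheory Set
open scoped ENNReal

namespace Pool.Agent.helper81.CW

theorem FIN1_tail (c : ℝ) (hc : 0 < c) : ∀ᶠ n : ℕ in Filter.atTop,
    200000 * ((n : ℝ) + 1) ^ 5 / c * (1.8234 / 1.84) ^ n ≤ 0.991 ^ n := by
  have h1 : Filter.Tendsto (fun n : ℕ => (n : ℝ) ^ 5 * ((1.8234 / 1.84) / 0.991) ^ n) Filter.atTop
      (nhds 0) := by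
    apply tendsto_pow_const_mul_const_pow_of_abs_lt_one
    rw [abs_of_pos (by norm_num)]
    norm_num
  have h1' := h1.const_mul (6400000 / c)
  rw [mul_zero] at h1'
  have h2 := h1'.eventually_le_const (show (0 : ℝ) < 1 by norm_num)
  filter_upwards [h2, Filter.eventually_ge_atTop 1] with n hn hn1
  have hn1' : (1 : ℝ) ≤ n := by exact_mod_cast hn1
  have h3 : ((n : ℝ) + 1) ^ 5 ≤ 32 * (n : ℝ) ^ 5 := by
    have : (n : ℝ) + 1 ≤ 2 * n := by linarith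
    calc ((n : ℝ) + 1) ^ 5 ≤ (2 * (n : ℝ)) ^ 5 := pow_le_pow_left₀ (by positivity) this 5
      _ = 32 * (n : ℝ) ^ 5 := by ring
  have h4 : ((1.8234 / 1.84 : ℝ)) ^ n = ((1.8234 / 1.84) / 0.991) ^ n * 0.991 ^ n := by
    rw [← mul_pow]; congr 1; norm_num
  rw [h4]
  have h5 : 200000 * ((n : ℝ) + 1) ^ 5 / c * ((1.8234 / 1.84) / 0.991) ^ n ≤ 1 := by
    refine le_trans ?_ hn
    rw [← mul_assoc]
    apply mul_le_mul_of_nonneg_right _ (by positivity)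
    rw [div_mul_eq_mul_div]
    apply div_le_div_of_nonneg_right _ hc.le
    linarith
  calc 200000 * ((n : ℝ) + 1) ^ 5 / c * (((1.8234 / 1.84) / 0.991) ^ n * 0.991 ^ n)
      = (200000 * ((n : ℝ) + 1) ^ 5 / c * ((1.8234 / 1.84) / 0.991) ^ n) * 0.991 ^ n := by ring
    _ ≤ 1 * 0.991 ^ n := mul_le_mul_of_nonneg_right h5 (by positivity)
    _ = 0.991 ^ n := one_mul _

/-- the body `M n` has small inner symmetry -/
theorem FIN1_M (hU1 : U1_stmt) (hU7 : U7_stmt) {c : ℝ} (hc : 0 < c) {n : ℕ} (hn : 0 < n)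
    (hV : ENNReal.ofReal (c / ((n : ℝ) + 1) ^ 5 * 1.84 ^ n / (n : ℝ) ^ ((n : ℝ) / 2)) ≤
      volume (M n)) :
    innerSym (M n) ≤ ENNReal.ofReal (200000 * ((n : ℝ) + 1) ^ 5 / c * (1.8234 / 1.84) ^ n) := by
  have hn' : (0 : ℝ) < n := by exact_mod_cast hn
  have hden : (0 : ℝ) < (n : ℝ) ^ ((n : ℝ) / 2) := Real.rpow_pos_of_pos hn' _
  unfold innerSym
  have hsup : (⨆ A : {A : Set (E n) // A ⊆ M n ∧ Convex ℝ A ∧ CentrallySymmetric A}, volume A.1) ≤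
      ENNReal.ofReal (200000 * 1.8234 ^ n / (n : ℝ) ^ ((n : ℝ) / 2)) := by
    refine iSup_le ?_
    rintro ⟨A, hA, -, c', hc'⟩
    exact (hU1 n A c' hA (fun x hx => (hc' x).1 hx)).trans (hU7 n c' hn)
  have hpos : (0 : ℝ) < c / ((n : ℝ) + 1) ^ 5 * 1.84 ^ n / (n : ℝ) ^ ((n : ℝ) / 2) := by positivity
  calc _ ≤ ENNReal.ofReal (200000 * 1.8234 ^ n / (n : ℝ) ^ ((n : ℝ) / 2)) /
        ENNReal.ofReal (c / ((n : ℝ) + 1) ^ 5 * 1.84 ^ n / (n : ℝ) ^ ((n : ℝ) / 2)) :=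
        ENNReal.div_le_div hsup hV
    _ = ENNReal.ofReal ((200000 * 1.8234 ^ n / (n : ℝ) ^ ((n : ℝ) / 2)) /
        (c / ((n : ℝ) + 1) ^ 5 * 1.84 ^ n / (n : ℝ) ^ ((n : ℝ) / 2))) := by
        rw [ENNReal.ofReal_div_of_pos hpos]
    _ = _ := by
        congr 1
        rw [div_pow]
        field_simp

theorem FIN1 (hW1 : W1_stmt) (hW2 : W2_stmt) (hV4 : V4_stmt) (hU1 : U1_stmt) (hU7 : U7_stmt) :
    FIN1_stmt := by
  obtain ⟨c, hc, hV⟩ := hV4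
  filter_upwards [FIN1_tail c hc, Filter.eventually_ge_atTop 1] with n hn hn1
  have hcw : ConstWidth (M n) 1 :=
    ⟨(hW1 n).1, (hW1 n).2.1, (hW1 n).2.2, one_pos, fun u hu => hW2 n u hu⟩
  calc sigma n ≤ innerSym (M n) :=
        iInf_le (fun C : {C : Set (E n) // ∃ w, ConstWidth C w} => innerSym C.1) ⟨M n, 1, hcw⟩
    _ ≤ ENNReal.ofReal (200000 * ((n : ℝ) + 1) ^ 5 / c * (1.8234 / 1.84) ^ n) :=
        FIN1_M hU1 hU7 hc hn1 (hV n hn1)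
    _ ≤ ENNReal.ofReal (0.991 ^ n) := ENNReal.ofReal_le_ofReal hn

end Pool.Agent.helper81.CW
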