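import Pool.Agent.helper81.CW.Lower

/-! # Project cw: final asymptotic statements -/

open MeasureTheory Set Filter
open scoped ENNReal

namespace Pool.Agent.helper81.CW

/-- `2/(n+1)` is eventually small -/
theorem final_small {δ : ℝ} (hδ : 0 < δ) : ∀ᶠ n : ℕ in atTop, 2 / ((n : ℝ) + 1) ≤ δ := by
  have h : Tendsto (fun n : ℕ => 2 / ((n : ℝ) + 1)) atTop (nhds 0) := by
    have h1 := (tendsto_one_div_add_atTop_nhds_zero_nat (𝕜 := ℝ)).const_mul 2
    simp only [mul_zero, mul_one_div] at h1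
    exact h1
  exact h.eventually_le_const hδ

/-- asymptotic lower bound for `σ` -/
theorem final_sigma_low : ∀ᶠ n : ℕ in atTop, ENNReal.ofReal (0.73 ^ n) ≤ sigma n := by
  filter_upwards [final_small (show (0 : ℝ) < 0.004 ^ 2 by norm_num), eventually_ge_atTop 1]
    with n hn hn1
  refine le_trans ?_ (lower_sigma n hn1 _ rfl)
  set s := Real.sqrt (2 / ((n : ℝ) + 1)) with hs
  have hs0 : 0 ≤ s := Real.sqrt_nonneg _
  have hs1 : s ≤ 0.004 := by
    rw [hs]
    apply Real.sqrt_le_iff.mpr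
    exact ⟨by norm_num, hn⟩
  apply ENNReal.ofReal_le_ofReal
  apply pow_le_pow_left₀ (by norm_num)
  have h1 : 1.73 + s ≤ Real.sqrt (3 + 2 * s + 2 * s ^ 2) := by
    apply Real.le_sqrt_of_sq_le
    nlinarith [sq_nonneg s]
  linarith

/-- asymptotic lower bound for `τ` -/
theorem final_tau_low : ∀ᶠ n : ℕ in atTop, ENNReal.ofReal (0.73 ^ n) ≤ tau n := by
  have h1 : Tendsto (fun n : ℕ => (n : ℝ) ^ 1 * (0.73 / 0.732) ^ n) atTop (nhds 0) := by
    apply tendsto_pow_const_mul_const_pow_of_abs_lt_one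
    rw [abs_of_pos (by norm_num)]
    norm_num
  have h1' := h1.const_mul 10
  rw [mul_zero] at h1'
  have h2 := h1'.eventually_le_const (show (0 : ℝ) < 1 by norm_num)
  filter_upwards [h2, eventually_ge_atTop 1] with n hn hn1
  have hn1' : (1 : ℝ) ≤ n := by exact_mod_cast hn1
  refine le_trans ?_ ((ENNReal.div_le_div_right (lower_mvol hn1) _).trans (lower_tau hn1).1)
  rw [← ENNReal.ofReal_div_of_pos (by positivity)]
  apply ENNReal.ofReal_le_ofReal
  have h3 : (0.732 : ℝ) ^ n ≤ (Real.sqrt (3 + 2 / ((n : ℝ) + 1)) - 1) ^ n := by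
    apply pow_le_pow_left₀ (by norm_num)
    have h4 : (1.732 : ℝ) ≤ Real.sqrt (3 + 2 / ((n : ℝ) + 1)) := by
      apply Real.le_sqrt_of_sq_le
      have : 0 < 2 / ((n : ℝ) + 1) := by positivity
      norm_num
      linarith
    linarith
  rw [le_div_iff₀ (by positivity)]
  refine le_trans ?_ h3
  have h5 : (0.73 : ℝ) ^ n = (0.73 / 0.732) ^ n * 0.732 ^ n := by
    rw [← mul_pow]; congr 1; norm_num
  rw [h5]
  have h6 : (0.73 / 0.732 : ℝ) ^ n * (5 * ((n : ℝ) + 1)) ≤ 1 := by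
    refine le_trans ?_ hn
    rw [pow_one]
    have h7 : 0 ≤ (0.73 / 0.732 : ℝ) ^ n := by positivity
    nlinarith
  calc (0.73 / 0.732 : ℝ) ^ n * 0.732 ^ n * (5 * ((n : ℝ) + 1))
      = ((0.73 / 0.732 : ℝ) ^ n * (5 * ((n : ℝ) + 1))) * 0.732 ^ n := by ring
    _ ≤ 1 * 0.732 ^ n := mul_le_mul_of_nonneg_right h6 (by positivity)
    _ = 0.732 ^ n := one_mul _

/-- asymptotic upper bound for `τ` -/
theorem final_tau_up : ∀ᶠ n : ℕ in atTop, tau n ≤ ENNReal.ofReal (0.9 ^ n) := by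
  filter_upwards [upper_mvol, eventually_ge_atTop 1] with n h hn1
  exact (lower_tau hn1).2.trans h

end Pool.Agent.helper81.CW
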