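import Pool.Agent.helper81.CW.Spec2

/-! # Project cw, module JS: Jung's theorem with the sharp constant -/

open MeasureTheory Set

namespace Pool.Agent.helper81.CW

/-- the finite part: a point close to the convex hull of a set of diameter at most one on a sphere -/
theorem JS_fin {n : ℕ} {T : Set (E n)} {z z' : E n} {R : ℝ} (hT : ∀ x ∈ T, ‖x - z‖ = R)
    (hd : ∀ x ∈ T, ∀ y ∈ T, ‖x - y‖ ≤ 1) (hz' : z' ∈ convexHull ℝ T) (hR : 0 ≤ R) :
    2 * R ^ 2 - 2 * ‖z' - z‖ * R ≤ n / (n + 1) := by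
  rw [convexHull_eq_union] at hz'
  simp only [mem_iUnion] at hz'
  obtain ⟨t, htT, hai, hz'⟩ := hz'
  rw [Finset.mem_convexHull] at hz'
  obtain ⟨w, hw0, hw1, hcm⟩ := hz'
  have hcard : t.card ≤ n + 1 := by
    have h := hai.card_le_finrank_succ
    rw [Fintype.card_coe] at h
    refine h.trans ?_
    have h2 := Submodule.finrank_le (vectorSpan ℝ (Set.range ((↑) : t → E n)))
    rw [finrank_euclideanSpace_fin] at h2
    omega
  have hne : t.Nonempty := by
    by_contra h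
    rw [Finset.not_nonempty_iff_eq_empty] at h
    rw [h] at hw1
    simp at hw1
  have hsum : ∑ y ∈ t, w y • (y - z) = z' - z := by
    have h1 : ∑ y ∈ t, w y • y = z' := by
      rw [← hcm, Finset.centerMass_eq_of_sum_1 _ _ hw1]
      rfl
    simp only [smul_sub, Finset.sum_sub_distrib, h1, ← Finset.sum_smul, hw1, one_smul]
  have key : ∀ x ∈ t, 2 * R ^ 2 - 2 * ‖z' - z‖ * R ≤ 1 - w x := by
    intro x hx
    have h1 : ∑ y ∈ t, w y * ‖y - x‖ ^ 2 = 2 * R ^ 2 - 2 * inner ℝ (z' - z) (x - z) := by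
      have h2 : ∀ y ∈ t, w y * ‖y - x‖ ^ 2 =
          w y * (2 * R ^ 2) - 2 * inner ℝ (w y • (y - z)) (x - z) := by
        intro y hy
        have h3 : y - x = (y - z) - (x - z) := by abel
        rw [h3, norm_sub_sq_real, hT y (htT hy), hT x (htT hx), real_inner_smul_left]
        ring
      rw [Finset.sum_congr rfl h2, Finset.sum_sub_distrib, ← Finset.sum_mul, hw1, ← Finset.mul_sum,
        ← sum_inner, hsum, one_mul]
    have h4 : ∑ y ∈ t, w y * ‖y - x‖ ^ 2 ≤ 1 - w x := by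
      rw [← Finset.add_sum_erase t _ hx]
      rw [← Finset.add_sum_erase t _ hx] at hw1
      simp only [sub_self, norm_zero]
      have h5 : ∑ y ∈ t.erase x, w y * ‖y - x‖ ^ 2 ≤ ∑ y ∈ t.erase x, w y := by
        refine Finset.sum_le_sum fun y hy => ?_
        have hy' := Finset.mem_of_mem_erase hy
        have h6 : ‖y - x‖ ^ 2 ≤ 1 := by
          have := pow_le_pow_left₀ (norm_nonneg _) (hd y (htT hy') x (htT hx)) 2
          simpa using this
        nlinarith [hw0 y hy']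
      nlinarith
    have h7 : inner ℝ (z' - z) (x - z) ≤ ‖z' - z‖ * R := by
      have := real_inner_le_norm (z' - z) (x - z)
      rwa [hT x (htT hx)] at this
    linarith
  have hsum2 : (t.card : ℝ) * (2 * R ^ 2 - 2 * ‖z' - z‖ * R) ≤ t.card - 1 := by
    have h1 : ∑ _x ∈ t, (2 * R ^ 2 - 2 * ‖z' - z‖ * R) ≤ ∑ x ∈ t, (1 - w x) :=
      Finset.sum_le_sum key
    rw [Finset.sum_const, Finset.sum_sub_distrib, hw1, Finset.sum_const] at h1
    simpa using h1
  have hc0 : (0 : ℝ) < t.card := by exact_mod_cast hne.card_pos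
  have hc1 : (t.card : ℝ) ≤ n + 1 := by exact_mod_cast hcard
  have hn0 : (0 : ℝ) < (n : ℝ) + 1 := by positivity
  rw [le_div_iff₀ hn0]
  have h2 : 2 * R ^ 2 - 2 * ‖z' - z‖ * R ≤ 1 - 1 / t.card := by
    rw [le_sub_iff_add_le, ← le_sub_iff_add_le', div_le_iff₀ hc0]
    linarith
  have h3 : 1 / ((n : ℝ) + 1) ≤ 1 / t.card := one_div_le_one_div_of_le hc0 hc1
  have h4 : 2 * R ^ 2 - 2 * ‖z' - z‖ * R ≤ 1 - 1 / ((n : ℝ) + 1) := by linarith
  calc (2 * R ^ 2 - 2 * ‖z' - z‖ * R) * ((n : ℝ) + 1) ≤ (1 - 1 / ((n : ℝ) + 1)) * ((n : ℝ) + 1) :=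
        mul_le_mul_of_nonneg_right h4 hn0.le
    _ = n := by field_simp; ring

/-- Jung's theorem, sharp constant -/
theorem JS (n : ℕ) (C : Set (E n)) (hC : IsCompact C) (hne : C.Nonempty)
    (hd : ∀ x ∈ C, ∀ y ∈ C, ‖x - y‖ ≤ 1) :
    ∃ (z : E n) (R : ℝ), 0 ≤ R ∧ R ^ 2 ≤ n / (2 * (n + 1)) ∧ ∀ x ∈ C, ‖x - z‖ ≤ R := by
  obtain ⟨x₀, hx₀⟩ := hne
  set F : E n → ℝ := fun z => sSup ((fun x => ‖x - z‖) '' C) with hF
  have hcont : Continuous F :=
    hC.continuous_sSup (f := fun z x => ‖x - z‖) (by unfold Function.HasUncurry.uncurry; fun_prop)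
  have hbdd : ∀ z, BddAbove ((fun x => ‖x - z‖) '' C) := fun z =>
    (hC.image (by fun_prop)).bddAbove
  have hle : ∀ z, ∀ x ∈ C, ‖x - z‖ ≤ F z := fun z x hx => le_csSup (hbdd z) ⟨x, hx, rfl⟩
  have hatt : ∀ z, ∃ x ∈ C, ‖x - z‖ = F z := by
    intro z
    obtain ⟨x, hx, hmax⟩ := hC.exists_isMaxOn ⟨x₀, hx₀⟩
      (f := fun x => ‖x - z‖) (Continuous.continuousOn (by fun_prop))
    refine ⟨x, hx, le_antisymm (hle z x hx) (csSup_le ⟨_, ⟨x₀, hx₀, rfl⟩⟩ ?_)⟩
    rintro _ ⟨y, hy, rfl⟩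
    exact hmax hy
  obtain ⟨z, hz, hmin⟩ := (isCompact_closedBall x₀ 1).exists_isMinOn
    ⟨x₀, by simp⟩ hcont.continuousOn
  have hglob : ∀ z', F z ≤ F z' := by
    intro z'
    by_cases h : z' ∈ Metric.closedBall x₀ 1
    · exact hmin h
    · have h1 : 1 < dist z' x₀ := by simpa using h
      calc F z ≤ F x₀ := hmin (by simp)
        _ ≤ 1 := by
          obtain ⟨x, hx, e⟩ := hatt x₀
          rw [← e]
          exact hd x hx x₀ hx₀
        _ ≤ ‖x₀ - z'‖ := by
          rw [← dist_eq_norm, dist_comm]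
          exact h1.le
        _ ≤ F z' := hle z' x₀ hx₀
  have hR0 : 0 ≤ F z := (norm_nonneg _).trans (hle z x₀ hx₀)
  refine ⟨z, F z, hR0, ?_, hle z⟩
  set T : Set (E n) := {x | x ∈ C ∧ ‖x - z‖ = F z} with hT
  -- `z` is in the closure of the convex hull of the contact set
  have hzcl : z ∈ closure (convexHull ℝ T) := by
    by_contra hnot
    obtain ⟨f, u, hfz, hfb⟩ := geometric_hahn_banach_point_closed
      ((convex_convexHull ℝ T).closure) isClosed_closure hnot
    set v : E n := (InnerProductSpace.toDual ℝ (E n)).symm f with hv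
    have hfv : ∀ x, f x = inner ℝ v x := by
      intro x
      rw [hv, InnerProductSpace.toDual_symm_apply]
    set δ := u - f z with hδ
    have hδ0 : 0 < δ := by rw [hδ]; linarith
    have hTv : ∀ x ∈ T, δ < inner ℝ v (x - z) := by
      intro x hx
      have := hfb x (subset_closure (subset_convexHull ℝ T hx))
      rw [inner_sub_right, ← hfv, ← hfv, hδ]
      linarith
    have hv0 : 0 < ‖v‖ := by
      obtain ⟨x, hx, hxe⟩ := hatt z
      have h1 := hTv x ⟨hx, hxe⟩
      have h2 : inner ℝ v (x - z) ≤ ‖v‖ * ‖x - z‖ := real_inner_le_norm _ _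
      by_contra h3
      have h4 : ‖v‖ = 0 := le_antisymm (not_lt.mp h3) (norm_nonneg _)
      rw [h4, zero_mul] at h2
      linarith
    -- points in a half space are at distance less than `F z - η`
    obtain ⟨η, hη0, hη⟩ : ∃ η : ℝ, 0 < η ∧ ∀ x ∈ C, inner ℝ v (x - z) ≤ δ → ‖x - z‖ ≤ F z - η := by
      by_cases hK : ({x | x ∈ C ∧ inner ℝ v (x - z) ≤ δ} : Set (E n)).Nonempty
      · have hKc : IsCompact ({x | x ∈ C ∧ inner ℝ v (x - z) ≤ δ} : Set (E n)) := by
          have h1 : IsClosed ({x | inner ℝ v (x - z) ≤ δ} : Set (E n)) :=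
            isClosed_le (by fun_prop) continuous_const
          have := hC.inter_right h1
          exact this
        obtain ⟨x, hx, hmax⟩ := hKc.exists_isMaxOn hK (f := fun x => ‖x - z‖)
          (Continuous.continuousOn (by fun_prop))
        refine ⟨F z - ‖x - z‖, ?_, ?_⟩
        · have h1 := hle z x hx.1
          have h2 : ‖x - z‖ ≠ F z := by
            intro h3
            have := hTv x ⟨hx.1, h3⟩
            have h4 := hx.2
            linarith
          have := lt_of_le_of_ne h1 h2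
          linarith
        · intro y hy hyv
          have : ‖y - z‖ ≤ ‖x - z‖ := hmax ⟨hy, hyv⟩
          linarith
      · refine ⟨1, one_pos, fun x hx hxv => ?_⟩
        exact absurd ⟨x, hx, hxv⟩ hK
    set s : ℝ := min (η / 2 / ‖v‖) (δ / ‖v‖ ^ 2) with hs
    have hs0 : 0 < s := lt_min (by positivity) (by positivity)
    have hs1 : s * ‖v‖ ≤ η / 2 := by
      have h1 : s ≤ η / 2 / ‖v‖ := min_le_left _ _
      calc s * ‖v‖ ≤ η / 2 / ‖v‖ * ‖v‖ := mul_le_mul_of_nonneg_right h1 hv0.le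
        _ = η / 2 := by field_simp
    have hs2 : s * ‖v‖ ^ 2 ≤ δ := by
      have h1 : s ≤ δ / ‖v‖ ^ 2 := min_le_right _ _
      calc s * ‖v‖ ^ 2 ≤ δ / ‖v‖ ^ 2 * ‖v‖ ^ 2 := mul_le_mul_of_nonneg_right h1 (by positivity)
        _ = δ := by field_simp
    obtain ⟨x, hx, hxe⟩ := hatt (z + s • v)
    have hge : F z ≤ ‖x - (z + s • v)‖ := by
      rw [hxe]
      exact hglob _
    have h1 : x - (z + s • v) = (x - z) - s • v := by abel
    rw [h1] at hge
    by_cases hxv : inner ℝ v (x - z) ≤ δ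
    · have h2 := hη x hx hxv
      have h3 : ‖(x - z) - s • v‖ ≤ ‖x - z‖ + ‖s • v‖ := norm_sub_le _ _
      rw [norm_smul, Real.norm_eq_abs, abs_of_pos hs0] at h3
      linarith
    · push Not at hxv
      have h2 : (F z) ^ 2 ≤ ‖(x - z) - s • v‖ ^ 2 := pow_le_pow_left₀ hR0 hge 2
      rw [norm_sub_sq_real, real_inner_smul_right, norm_smul, Real.norm_eq_abs, abs_of_pos hs0,
        real_inner_comm] at h2
      have h3 : ‖x - z‖ ^ 2 ≤ (F z) ^ 2 := pow_le_pow_left₀ (norm_nonneg _) (hle z x hx) 2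
      have h4 : (s * ‖v‖) ^ 2 ≤ s * δ := by
        calc (s * ‖v‖) ^ 2 = s * (s * ‖v‖ ^ 2) := by ring
          _ ≤ s * δ := mul_le_mul_of_nonneg_left hs2 hs0.le
      nlinarith
  -- conclusion
  have hfin : ∀ ε : ℝ, 0 < ε → 2 * (F z) ^ 2 - 2 * ε * F z ≤ n / (n + 1) := by
    intro ε hε
    rw [Metric.mem_closure_iff] at hzcl
    obtain ⟨z', hz', hdz⟩ := hzcl ε hε
    have h1 := JS_fin (n := n) (T := T) (z := z) (z' := z') (R := F z) (fun x hx => hx.2)
      (fun x hx y hy => hd x hx.1 y hy.1) hz' hR0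
    have h2 : ‖z' - z‖ ≤ ε := by
      rw [← dist_eq_norm, dist_comm]
      exact hdz.le
    nlinarith [mul_le_mul_of_nonneg_right h2 hR0]
  have hlim : 2 * (F z) ^ 2 ≤ n / (n + 1) := by
    by_contra hlt
    push Not at hlt
    set g := 2 * (F z) ^ 2 - n / (n + 1) with hg
    have hg0 : 0 < g := by rw [hg]; linarith
    have h1 := hfin (g / (4 * (F z + 1))) (by positivity)
    have h2 : 2 * (g / (4 * (F z + 1))) * F z ≤ g / 2 := by
      rw [show 2 * (g / (4 * (F z + 1))) * F z = g / 2 * (F z / (F z + 1)) by field_simp; ring]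
      have h3 : F z / (F z + 1) ≤ 1 := by
        rw [div_le_one (by positivity)]
        linarith
      calc g / 2 * (F z / (F z + 1)) ≤ g / 2 * 1 := mul_le_mul_of_nonneg_left h3 (by positivity)
        _ = g / 2 := mul_one _
    linarith
  have hn0 : (0 : ℝ) < (n : ℝ) + 1 := by positivity
  have : (n : ℝ) / (2 * (n + 1)) = (n / (n + 1)) / 2 := by field_simp
  rw [this]
  linarith

end Pool.Agent.helper81.CW
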