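import Pool.Agent.helper81.CW.Spec2
import Pool.Agent.helper81.CW.JS
import Pool.Agent.helper20.CW.LOW

/-!
# Project cw, module LOWS: sharp form of the lower bound for the volume of the symmetric part (after module LOW of helper20)
-/

open MeasureTheory Set
open scoped ENNReal

namespace Pool.Agent.helper81.CW

/-- tangent line inequality for `t ↦ -t + √(t^2 + b)` -/
theorem LOWS_tangent {b t t0 : ℝ} (hb : 0 < b) :
    (-t0 + Real.sqrt (t0 ^ 2 + b)) + (1 - t0 / Real.sqrt (t0 ^ 2 + b)) * (t0 - t) ≤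
      -t + Real.sqrt (t ^ 2 + b) := by
  have hq : 0 < t0 ^ 2 + b := by positivity
  have hs : 0 < Real.sqrt (t0 ^ 2 + b) := Real.sqrt_pos.mpr hq
  have hs2 : Real.sqrt (t0 ^ 2 + b) ^ 2 = t0 ^ 2 + b := Real.sq_sqrt hq.le
  have h1 : Real.sqrt (t0 ^ 2 + b) + t0 * (t - t0) / Real.sqrt (t0 ^ 2 + b) ≤ Real.sqrt (t ^ 2 + b) := by
    apply Real.le_sqrt_of_sq_le
    have h2 : Real.sqrt (t0 ^ 2 + b) + t0 * (t - t0) / Real.sqrt (t0 ^ 2 + b) =
        (b + t0 * t) / Real.sqrt (t0 ^ 2 + b) := by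
      field_simp
      rw [hs2]
      ring
    rw [h2, div_pow, hs2, div_le_iff₀ hq]
    nlinarith [mul_nonneg hb.le (sq_nonneg (t - t0))]
  have h3 : (1 - t0 / Real.sqrt (t0 ^ 2 + b)) * (t0 - t) =
      t0 - t + t0 * (t - t0) / Real.sqrt (t0 ^ 2 + b) := by ring
  rw [h3]
  linarith

/-- the slope is nonnegative -/
theorem LOWS_slope {b t0 : ℝ} (hb : 0 < b) : 0 ≤ 1 - t0 / Real.sqrt (t0 ^ 2 + b) := by
  have hq : 0 < t0 ^ 2 + b := by positivity
  have hs : 0 < Real.sqrt (t0 ^ 2 + b) := Real.sqrt_pos.mpr hq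
  rw [sub_nonneg, div_le_one hs]
  apply Real.le_sqrt_of_sq_le
  linarith

/-- `R^2 ≤ n/(2(n+1))` in terms of `s = √(2/(n+1))` -/
theorem LOWS_R {n : ℕ} {R s : ℝ} (hs : s = Real.sqrt (2 / ((n : ℝ) + 1)))
    (hR : R ^ 2 ≤ n / (2 * (n + 1))) : R ^ 2 ≤ 1 / 2 - s ^ 2 / 4 := by
  have h1 : s ^ 2 = 2 / ((n : ℝ) + 1) := by
    rw [hs]
    exact Real.sq_sqrt (by positivity)
  rw [h1]
  have h2 : (n : ℝ) / (2 * (n + 1)) = 1 / 2 - 2 / ((n : ℝ) + 1) / 4 := by
    field_simp
    ring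
  linarith

/-- the deviation `R/√n` is at most `s/2` -/
theorem LOWS_Rn {n : ℕ} (hn : 0 < n) {R s : ℝ} (hs : s = Real.sqrt (2 / ((n : ℝ) + 1)))
    (hR : R ^ 2 ≤ n / (2 * (n + 1))) : R / Real.sqrt n ≤ s / 2 := by
  have hn0 : (0 : ℝ) < n := by exact_mod_cast hn
  have h1 : s ^ 2 = 2 / ((n : ℝ) + 1) := by
    rw [hs]
    exact Real.sq_sqrt (by positivity)
  have hs0 : 0 ≤ s := by rw [hs]; exact Real.sqrt_nonneg _
  have h2 : (R / Real.sqrt n) ^ 2 ≤ (s / 2) ^ 2 := by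
    rw [div_pow, Real.sq_sqrt hn0.le, div_pow, h1, div_le_iff₀ hn0]
    refine hR.trans (le_of_eq ?_)
    field_simp
    try norm_num
  exact le_of_sq_le_sq h2 (by positivity)

/-- sharp form of `LOW` -/
theorem LOWS (g1 : G1_stmt) (g5 : G5_stmt) (j2 : J2_stmt) (j3 : J3_stmt)
    (j4 : J4_stmt) (j5 : J5_stmt) (j6 : J6_stmt) (n : ℕ) (C : Set (E n)) (hn : 0 < n)
    (hC : ConstWidth C 1) (s : ℝ) (hs : s = Real.sqrt (2 / ((n : ℝ) + 1))) :
    ∃ z : E n, ENNReal.ofReal (kap n * ((Real.sqrt (3 + 2 * s + 2 * s ^ 2) - 1 - s) / 2) ^ n) ≤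
      volume {x : E n | z + x ∈ C ∧ z - x ∈ C} := by
  obtain ⟨hne, hcomp, hconv, hw, hwid⟩ := id hC
  obtain ⟨hdiam, -, -⟩ := j2 n C 1 hC
  obtain ⟨z, R, hR0, hR2', hzR⟩ := JS n C hcomp hne hdiam
  have hss0 : 0 ≤ s := by rw [hs]; exact Real.sqrt_nonneg _
  have hRs2 := LOWS_R hs hR2'
  have hRn := LOWS_Rn hn hs hR2'
  have hR2 : R ^ 2 ≤ 1 / 2 := by nlinarith [sq_nonneg s]
  refine ⟨z, ?_⟩
  obtain ⟨hC'0, -⟩ := j3 n C 1 1 z hC one_pos
  set C' : Set (E n) := (fun x => (1 : ℝ) • (x - z)) '' C with hC'def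
  rw [one_mul] at hC'0
  have hne' : C'.Nonempty := hne.image _
  have hR' : ∀ x ∈ C', ‖x‖ ≤ R := by
    rintro _ ⟨x, hx, rfl⟩
    simpa using hzR x hx
  obtain ⟨-, hLip, hhom⟩ := j4 n C' R hne' hR0 hR'
  have hs0 : supp C' 0 = 0 := LOW_supp_zero C' hne'
  -- the support function is continuous
  have hcont : Continuous (supp C') := by
    have hL : LipschitzWith R.toNNReal (supp C') := by
      refine LipschitzWith.of_dist_le_mul fun x y => ?_
      rw [Real.dist_eq, dist_eq_norm, Real.coe_toNNReal R hR0]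
      exact hLip x y
    exact hL.continuous
  -- e
  obtain ⟨e, he⟩ : ∃ e : E n → ℝ, ∀ x, e x = |supp C' x / ‖x‖ - 1 / 2| := ⟨_, fun _ => rfl⟩
  have he0 : ∀ x, 0 ≤ e x := fun x => by rw [he]; exact abs_nonneg _
  have heM : Measurable e := by
    have h1 : e = fun x => |supp C' x / ‖x‖ - 1 / 2| := funext he
    rw [h1]
    exact continuous_abs.measurable.comp ((hcont.measurable.div measurable_norm).sub_const _)
  have heB : ∀ x, e x ≤ R + 1 / 2 := by
    intro x
    rw [he]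
    have h1 : |supp C' x| ≤ R * ‖x‖ := by
      have h := hLip x 0
      rw [hs0, sub_zero, sub_zero] at h
      exact h
    have h2 : |supp C' x / ‖x‖| ≤ R := by
      rw [abs_div, abs_norm]
      by_cases hx : ‖x‖ = 0
      · rw [hx, div_zero]; exact hR0
      · have hxp : 0 < ‖x‖ := lt_of_le_of_ne (norm_nonneg x) (Ne.symm hx)
        rw [div_le_iff₀ hxp]
        exact h1
    have h3 := abs_sub (supp C' x / ‖x‖) (1 / 2)
    have h4 : |(1 / 2 : ℝ)| = 1 / 2 := abs_of_pos (by norm_num)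
    linarith
  -- f
  obtain ⟨ph, hph⟩ : ∃ ph : ℝ → ℝ, ∀ t, ph t = -(1 / 2 + t) + Real.sqrt ((1 / 2 + t) ^ 2 + 1 - R ^ 2) :=
    ⟨_, fun _ => rfl⟩
  have hphC : Continuous ph := by
    have h1 : ph = fun t => -(1 / 2 + t) + Real.sqrt ((1 / 2 + t) ^ 2 + 1 - R ^ 2) := funext hph
    rw [h1]
    fun_prop
  have hph1 : ∀ t, 0 ≤ t → 0 ≤ ph t ∧ ph t ≤ 1 := by
    intro t ht
    rw [hph]
    have h2 : 1 / 2 + t ≤ Real.sqrt ((1 / 2 + t) ^ 2 + 1 - R ^ 2) := by
      apply Real.le_sqrt_of_sq_le; linarith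
    have h4 : Real.sqrt ((1 / 2 + t) ^ 2 + 1 - R ^ 2) ≤ 3 / 2 + t := by
      rw [Real.sqrt_le_left (by linarith)]; nlinarith [sq_nonneg R]
    exact ⟨by linarith, by linarith⟩
  have hfM : Measurable fun x => ph (e x) := hphC.measurable.comp heM
  have hfhom : ∀ (x : E n) (t : ℝ), 0 < t → ph (e (t • x)) = ph (e x) := by
    intro x t ht
    have h1 : e (t • x) = e x := by
      rw [he, he, hhom x t ht.le, norm_smul, Real.norm_of_nonneg ht.le,
        mul_div_mul_left _ _ ht.ne']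
    rw [h1]
  have hG5 := g5 n (fun x => ph (e x)) hn hfM (fun x => (hph1 _ (he0 x)).1)
    (fun x => (hph1 _ (he0 x)).2) hfhom
  -- the integral
  haveI : IsProbabilityMeasure (gm n) := (g1 n).1
  have heI : Integrable e (gm n) := by
    refine Integrable.of_bound heM.aestronglyMeasurable (R + 1 / 2) ?_
    refine Filter.Eventually.of_forall fun x => ?_
    rw [Real.norm_of_nonneg (he0 x)]
    exact heB x
  have hfI : Integrable (fun x => ph (e x)) (gm n) := by
    refine Integrable.of_bound hfM.aestronglyMeasurable 1 ?_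
    refine Filter.Eventually.of_forall fun x => ?_
    rw [Real.norm_of_nonneg (hph1 _ (he0 x)).1]
    exact (hph1 _ (he0 x)).2
  have hJ6 : ∫ x, e x ∂(gm n) ≤ R / Real.sqrt n := by
    have h := j6 n C' R hn hC'0 hR0 hR'
    have h1 : (fun x => |supp C' x / ‖x‖ - 1 / 2|) = e := (funext he).symm
    rw [h1] at h
    exact h
  have hb : (0 : ℝ) < 1 - R ^ 2 := by linarith
  set t0 : ℝ := 1 / 2 + s / 2 with ht0
  set m : ℝ := 1 - t0 / Real.sqrt (t0 ^ 2 + (1 - R ^ 2)) with hm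
  have hm0 : 0 ≤ m := LOWS_slope hb
  set v : ℝ := -t0 + Real.sqrt (t0 ^ 2 + (1 - R ^ 2)) with hv
  have hvlow : (Real.sqrt (3 + 2 * s + 2 * s ^ 2) - 1 - s) / 2 ≤ v := by
    have h1 : Real.sqrt (3 + 2 * s + 2 * s ^ 2) / 2 ≤ Real.sqrt (t0 ^ 2 + (1 - R ^ 2)) := by
      apply Real.le_sqrt_of_sq_le
      rw [div_pow, Real.sq_sqrt (by positivity), ht0]
      nlinarith
    rw [hv, ht0]
    rw [ht0] at h1
    linarith
  have hint : v ≤ ∫ x, ph (e x) ∂(gm n) := by
    have h1 : ∫ x, (v + m * (s / 2) - m * e x) ∂(gm n) ≤ ∫ x, ph (e x) ∂(gm n) := by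
      refine integral_mono ((integrable_const _).sub (heI.const_mul m)) hfI fun x => ?_
      have h2 := LOWS_tangent (b := 1 - R ^ 2) (t := 1 / 2 + e x) (t0 := t0) hb
      have h5 : ph (e x) = -(1 / 2 + e x) + Real.sqrt ((1 / 2 + e x) ^ 2 + (1 - R ^ 2)) := by
        rw [hph, add_sub_assoc]
      have h3 : t0 - (1 / 2 + e x) = s / 2 - e x := by rw [ht0]; ring
      rw [h3] at h2
      have h4 : v + m * (s / 2) - m * e x = v + m * (s / 2 - e x) := by ring
      rw [h4, h5]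
      exact h2
    rw [integral_sub (integrable_const _) (heI.const_mul m), integral_const_mul, integral_const,
      probReal_univ, smul_eq_mul, one_mul] at h1
    have h4 : 0 ≤ m * (s / 2 - ∫ x, e x ∂(gm n)) := mul_nonneg hm0 (by linarith)
    linarith
  have hint0 : 0 ≤ ∫ x, ph (e x) ∂(gm n) :=
    integral_nonneg fun x => (hph1 _ (he0 x)).1
  -- the inclusion
  have hsub : {x : E n | ‖x‖ ≤ ph (e x)} ⊆ {x : E n | z + x ∈ C ∧ z - x ∈ C} := by
    intro x hx
    have hx' : ‖x‖ ≤ ph (e x) := hx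
    have key : ‖x‖ ^ 2 + 2 * max (supp C' x) (supp C' (-x)) + R ^ 2 ≤ 1 := by
      by_cases hx0 : x = 0
      · subst hx0
        rw [neg_zero, hs0, max_self, norm_zero]
        linarith
      · have hxp : 0 < ‖x‖ := norm_pos_iff.mpr hx0
        have hsum : supp C' x + supp C' (-x) = ‖x‖ := by
          have h1 : ‖(‖x‖⁻¹ : ℝ) • x‖ = 1 := by
            rw [norm_smul, norm_inv, norm_norm, inv_mul_cancel₀ hxp.ne']
          have h2 := hC'0.2.2.2.2 _ h1
          rw [← smul_neg, hhom x _ (inv_nonneg.mpr hxp.le), hhom (-x) _ (inv_nonneg.mpr hxp.le),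
            ← mul_add] at h2
          field_simp at h2
          linarith
        have ht : max (supp C' x) (supp C' (-x)) = ‖x‖ * (1 / 2 + e x) := by
          have h3 : supp C' x = ‖x‖ * (supp C' x / ‖x‖) := by
            field_simp
          have h4 : supp C' (-x) = ‖x‖ * (1 - supp C' x / ‖x‖) := by
            have : supp C' (-x) = ‖x‖ - supp C' x := by linarith
            rw [this, mul_sub, ← h3, mul_one]
          rw [he]
          generalize supp C' x / ‖x‖ = d at h3 h4 ⊢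
          rw [h3, h4]
          rcases le_total d (1 / 2) with hd | hd
          · rw [max_eq_right (by nlinarith), abs_of_nonpos (by linarith)]
            ring
          · rw [max_eq_left (by nlinarith), abs_of_nonneg (by linarith)]
            ring
        rw [ht]
        rw [hph] at hx'
        have h5 : ‖x‖ + (1 / 2 + e x) ≤ Real.sqrt ((1 / 2 + e x) ^ 2 + 1 - R ^ 2) := by linarith
        have h6 : 0 ≤ ‖x‖ + (1 / 2 + e x) := by
          have := he0 x
          linarith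
        have h7 : 0 ≤ (1 / 2 + e x) ^ 2 + 1 - R ^ 2 := by nlinarith [sq_nonneg (1 / 2 + e x)]
        have h8 : (‖x‖ + (1 / 2 + e x)) ^ 2 ≤ (1 / 2 + e x) ^ 2 + 1 - R ^ 2 := by
          have h9 := pow_le_pow_left₀ h6 h5 2
          rwa [Real.sq_sqrt h7] at h9
        nlinarith
    obtain ⟨hm1, hm2⟩ := j5 n C' R hC'0 hR0 hR' x key
    rw [hC'def] at hm1 hm2
    obtain ⟨y, hy, hyx⟩ := hm1
    obtain ⟨y', hy', hyx'⟩ := hm2
    simp only [one_smul] at hyx hyx'
    constructor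
    · have : z + x = y := by rw [← hyx]; abel
      rw [this]; exact hy
    · have : z - x = y' := by
        have h : z - x = z + -x := sub_eq_add_neg _ _
        rw [h, ← hyx']; abel
      rw [this]; exact hy'
  refine le_trans ?_ (hG5.trans (measure_mono hsub))
  apply ENNReal.ofReal_le_ofReal
  apply mul_le_mul_of_nonneg_left _ (LOW_kap_nonneg n)
  refine pow_le_pow_left₀ ?_ (hvlow.trans hint) n
  have h1 : 1 + s ≤ Real.sqrt (3 + 2 * s + 2 * s ^ 2) := by
    apply Real.le_sqrt_of_sq_le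
    nlinarith [sq_nonneg s]
  linarith

end Pool.Agent.helper81.CW
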