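import Pool.Agent.helper81.CW.Defs

/-! # Project cw, part 1: statements of the modules for `σ_d ≤ 0.991^d` (proof sketches in the docstrings).
Every module is independent of the others: take the statements of other modules as hypotheses. -/

open MeasureTheory Set
open scoped ENNReal

namespace Pool.Agent.helper81.CW

/-- M is compact, convex, nonempty. `nn` is convex: `min (t a + (1-t) b) 0 ≥ t min a 0 + (1-t) min b 0`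
and the Euclidean norm of a vector with nonnegative entries is monotone. -/
def W1_stmt : Prop := ∀ n : ℕ, (M n).Nonempty ∧ IsCompact (M n) ∧ Convex ℝ (M n)

/-- M has width 1. For a unit vector `u` put `a = pn u`, `b = nn u`, `a^2 + b^2 = 1`. Claim:
`supp M u = 1 - b/√2` if `1/√2 ≤ b`, and `= a/√2` if `b ≤ 1/√2` (equal if `b = 1/√2`).
Upper bound: for `z ∈ M`, `p = pn z`, `q = nn z`: `p^2 + q^2 + √2 q ≤ 1/2`, `⟪u,z⟫ ≤ a p + b q` (Cauchy-Schwarz on the positive and on the negative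
coordinates of `u`). If `b ≥ 1/√2`: `p^2 + (q+1/√2)^2 ≤ 1`, so `a p + b (q + 1/√2) ≤ 1`.
If `b ≤ 1/√2`: `p ≤ 1/√2 - q`, so `a p + b q ≤ a/√2`. Attained at `z = u^+ - (1 - 1/(√2 b)) u^-`, resp.
`z = u^+/(√2 a)` (`u = u^+ - u^-`). Replacing `u` by `-u` exchanges `a` and `b`. -/
def W2_stmt : Prop := ∀ (n : ℕ) (u : E n), ‖u‖ = 1 → supp (M n) u + supp (M n) (-u) = 1

/-- lower bound for the volume of the unit ball (here `0 / 0 = 0` and `0 ^ 0 = 1` for `m = 0`):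
Stirling for `Γ(m/2+1)`; `Γ(x+1)^2 ≤ (x+1) Γ(x+1) Γ(x+1/2) = (x+1) √π 2^(1-(2x+1)) Γ(2x+1)`
(`Real.Gamma_mul_Gamma_add_half`, monotonicity or log-convexity of Γ; check the constants), `x = m/2`, and `m! ≤ e m (m/e)^m`. -/
def V1_stmt : Prop := ∃ c : ℝ, 0 < c ∧ ∀ m : ℕ,
  c / ((m : ℝ) + 1) ^ 2 * (2 * Real.pi * Real.exp 1) ^ ((m : ℝ) / 2) / (m : ℝ) ^ ((m : ℝ) / 2) ≤ kap m

/-- decomposition by sign patterns: for a set `S` of coordinates, `|S| = k`, the set of all `z` with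
`z i < 0` on `S`, `z i ≥ 0` (or `> 0`) off `S`, `∑_{i ∉ S} z_i^2 ≤ P^2`, `∑_{i ∈ S} z_i^2 ≤ Q^2` is contained in `M n`; these sets are
disjoint for different `S`, and by symmetry the volume is `2^(-n)` times the volume
`kap (n-k) P^(n-k) kap k Q^k` of the product of two balls. -/
def V2_stmt : Prop := ∀ (n : ℕ) (P Q : ℝ), 0 ≤ P → 0 ≤ Q → P ^ 2 + Q ^ 2 + Real.sqrt 2 * Q ≤ 1 / 2 →
  ENNReal.ofReal (∑ k ∈ Finset.range (n + 1),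
    (n.choose k : ℝ) * (1 / 2) ^ n * kap (n - k) * kap k * P ^ (n - k) * Q ^ k) ≤ volume (M n)

/-- entropy sum, from `V1`. `C(n,k) k^k (n-k)^(n-k) ≤ n^n` (binomial theorem), so
`1/((n-k)^((n-k)/2) k^(k/2)) ≥ √(C(n,k)) n^(-n/2)`. Then the sum is at least
`c^2/(n+1)^4 (√(2πe)/2)^n n^(-n/2) ∑_k (C(n,k) a^(n-k) b^k)^(3/2)` with `P^2 = a^3`, `Q^2 = b^3`, and by the power mean
inequality `∑_{k ≤ n} x_k^(3/2) ≥ (n+1)^(-1/2) (∑ x_k)^(3/2)`, `∑ x_k = (a+b)^n`. -/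
def V3_stmt : Prop := ∃ c : ℝ, 0 < c ∧ ∀ (n : ℕ) (a b : ℝ), 0 < n → 0 ≤ a → 0 ≤ b →
  c / ((n : ℝ) + 1) ^ 5 * (Real.sqrt (2 * Real.pi * Real.exp 1) / 2 * (a + b) ^ ((3 : ℝ) / 2)) ^ n
      / (n : ℝ) ^ ((n : ℝ) / 2) ≤
    ∑ k ∈ Finset.range (n + 1), (n.choose k : ℝ) * (1 / 2) ^ n * kap (n - k) * kap k *
      (a ^ ((3 : ℝ) / 2)) ^ (n - k) * (b ^ ((3 : ℝ) / 2)) ^ k

/-- from `V2`, `V3` with `a = 0.66`, `b = 0.2657`: `a^3 + b^3 + √2 b^(3/2) ≤ 1/2` (as `2 b^3 ≤ (1/2 - a^3 - b^3)^2`) and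
`(a+b)^3 (2πe)/4 ≥ 1.84^2` (`3.38708 ≥ 3.3856`; `π > 3.14159`, `e > 2.71828`). -/
def V4_stmt : Prop := ∃ c : ℝ, 0 < c ∧ ∀ n : ℕ, 0 < n →
  ENNReal.ofReal (c / ((n : ℝ) + 1) ^ 5 * 1.84 ^ n / (n : ℝ) ^ ((n : ℝ) / 2)) ≤ volume (M n)

/-- `b = x - c`, `x` and `2c - x` in `M`: with `N = ‖b‖^2`, `s = 1/2 - ‖c‖^2`, `δ = ⟪c,b⟫`:
`√2 nn (c+b) ≤ s - N - 2δ`, `√2 nn (c-b) ≤ s - N + 2δ`; hence `N + 2|δ| ≤ s`; and coordinatewise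
`(max (|b i| - |c i|) 0)^2 ≤ (min (c i + b i) 0)^2 + (min (c i - b i) 0)^2`, so the sum is
`≤ nn (c+b)^2 + nn (c-b)^2 ≤ ((s-N-2δ)^2 + (s-N+2δ)^2)/2`. Volume: translation invariance. -/
def U1_stmt : Prop := ∀ (n : ℕ) (A : Set (E n)) (c : E n), A ⊆ M n →
  (∀ x : E n, x ∈ A → (2 : ℝ) • c - x ∈ A) → volume A ≤ volume (T c)

/-- cap: if `‖b‖^2 ≤ r^2 + x`, `⟪e,b⟫ ≥ √x` then `‖b - √x e‖ ≤ r`; two caps. -/
def U2_stmt : Prop := ∀ (n : ℕ) (e : E n) (r x : ℝ), ‖e‖ = 1 → 0 ≤ r → 0 ≤ x →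
  volume {b : E n | ‖b‖ ^ 2 ≤ r ^ 2 + x ∧ x ≤ (inner ℝ e b) ^ 2} ≤
    2 * volume (Metric.closedBall (0 : E n) r)

/-- Chernoff: the volume is at most `exp (nL W) * ∫ exp (- n L ∑ (max (|b i| - |c i|) 0)^2)`, the integral is a product of
`∫ exp (- n L (max (|t| - |c i|) 0)^2) dt = 2 |c i| + √(π/(nL))`, and by AM-GM and Cauchy-Schwarz
`∏ (2 |c i| + α) ≤ (2 (∑ |c i|)/n + α)^n ≤ (2 ‖c‖/√n + α)^n`, `α = √(π/(nL))`. -/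
def U3_stmt : Prop := ∀ (n : ℕ) (c : E n) (W L : ℝ), 0 < n → 0 < L →
  volume {b : E n | ∑ i, (max (|b i| - |c i|) 0) ^ 2 ≤ W} ≤
    ENNReal.ofReal ((Real.exp (L * W) * (2 * ‖c‖ + Real.sqrt (Real.pi / L))) ^ n /
      (n : ℝ) ^ ((n : ℝ) / 2))

/-- `U3` with `c = 0`, `W = r^2`, `L = 1/(2r^2)` (if `r = 0` the volume is 0). -/
def U4_stmt : Prop := ∀ (n : ℕ) (r : ℝ), 0 < n → 0 ≤ r →
  volume (Metric.closedBall (0 : E n) r) ≤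
    ENNReal.ofReal ((r * Real.sqrt (2 * Real.pi * Real.exp 1)) ^ n / (n : ℝ) ^ ((n : ℝ) / 2))

/-- real inequality: for `κ^2 = 1/2 - V^2`, `0 ≤ γ ≤ κ`, `0 ≤ q ≤ κ - γ` the convex function
`x = q^2 ↦ (κ^2 - γ^2 - x)^2 + 4 γ^2 x` is at most its maximum at the two ends `x = 0`, `x = (κ-γ)^2`. -/
def U5_stmt : Prop := ∀ κ γ q : ℝ, 0 ≤ γ → 0 ≤ q → q ≤ κ - γ →
  (κ ^ 2 - γ ^ 2 - q ^ 2) ^ 2 + 4 * γ ^ 2 * q ^ 2 ≤
    (κ - γ) ^ 2 * max ((κ + γ) ^ 2) (8 * γ ^ 2)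

/-- one-variable numerical inequality (`V = 0.4412`, `κ^2 = 1/2 - V^2 = 0.30534256`, `L = 6.7`). True maximum of the left
side: 1.8199 at γ = 0.3738 (0.3% below 1.8233). Split `[0, κ]` into intervals `[g, g']` (about 20); on each
`κ - γ ≤ κ - g`, `κ + γ ≤ κ + g'`; bound `exp` from above by a rational Taylor polynomial. (The value 4e-5 γ^2 comes from slabs of width 1e-5.) -/
def U6_stmt : Prop := ∀ κ γ : ℝ, 0 ≤ κ → κ ^ 2 = 0.30534256 → 0 ≤ γ → γ ≤ κ →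
  Real.exp (6.7 * ((κ - γ) ^ 2 * max ((κ + γ) ^ 2) (8 * γ ^ 2) + 0.00004 * γ ^ 2)) *
    (2 * γ + Real.sqrt (Real.pi / 6.7)) ≤ 1.8233

/-- union bound over slabs, from `U2`-`U6`. `V = 0.4412`, `h = 1e-5`, `γ = ‖c‖`, `κ^2 = 1/2 - V^2`.
If `γ ≥ κ`: `‖b‖^2 ≤ 1/2 - γ^2 ≤ V^2`. If `γ < κ`, let (for γ > 0) `e = c/γ`, `x = ⟪e,b⟫^2 ≤ ‖b‖^2 ≤ 1/2`, `j = ⌊x/h⌋ ≤ 50000`, `x_j = jh`, `q = √x_j`. Either
`‖b‖^2 ≤ V^2 + x_j`: cap set of `U2` (`r = V`); or `‖b‖^2 > V^2 + x_j`; then `2γq ≤ 2|⟪c,b⟫| ≤ s - ‖b‖^2 < κ^2 - γ^2 - q^2`, so `q + γ < κ`, and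
the sum is `≤ (κ^2-γ^2-q^2)^2 + 4γ^2(q^2 + h)`, so b is in the set of `U3` with `W = (κ-γ)^2 max((κ+γ)^2, 8γ^2) + 4γ^2 h`, `L = 6.7`.
(γ = 0: `b` is in the ball of radius V or in the set with `W = κ^4`.) `V √(2πe) = 1.82336.. ≤ 1.8234`. Total `50001 * (2+1) * 1.8234^n n^(-n/2)`. -/
def U7_stmt : Prop := ∀ (n : ℕ) (c : E n), 0 < n →
  volume (T c) ≤ ENNReal.ofReal (200000 * 1.8234 ^ n / (n : ℝ) ^ ((n : ℝ) / 2))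

/-- final: `200000 (n+1)^5/c * (1.8234/1.84)^n ≤ 0.991^n` for large `n` (`1.8234/1.84 = 0.990978...`). -/
def FIN1_stmt : Prop := ∀ᶠ n : ℕ in Filter.atTop, sigma n ≤ ENNReal.ofReal (0.991 ^ n)

end Pool.Agent.helper81.CW
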